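import Mathlib

/-! Periodic ordinary differential operators, Floquet matrices and polynomials in Hill operators. -/

open Polynomial

namespace Pool.Agent.Work.MP_214325_an

/-- `(L u)(x) = u⁽ⁿ⁾(x) + ∑_{k ≤ n - 2} p_k(x) u⁽ᵏ⁾(x)`. -/
noncomputable def applyL (n : ℕ) (p : ℕ → ℝ → ℂ) (u : ℝ → ℂ) (x : ℝ) : ℂ :=
  iteratedDeriv n u x + ∑ k ∈ Finset.range (n - 1), p k x * iteratedDeriv k u x

/-- `u_0, …, u_{n-1}` are the `C^n` solutions of `L u = lam u` with `u_j⁽ᵏ⁾(0) = δ_{jk}`. -/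
def IsFundSystem (n : ℕ) (p : ℕ → ℝ → ℂ) (lam : ℂ) (u : Fin n → ℝ → ℂ) : Prop :=
  ∀ j, ContDiff ℝ n (u j) ∧ (∀ x, applyL n p (u j) x = lam * u j x) ∧
    ∀ k : Fin n, iteratedDeriv k (u j) 0 = if j = k then 1 else 0

/-- The Floquet matrix `(u_j⁽ᵏ⁾(b))_{k, j}`. -/
noncomputable def floquet {n : ℕ} (b : ℝ) (u : Fin n → ℝ → ℂ) : Matrix (Fin n) (Fin n) ℂ :=
  Matrix.of fun k j => iteratedDeriv k (u j) b

/-- The Hill operator `u ↦ u'' + q u`. -/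
noncomputable def hill (q : ℝ → ℂ) (u : ℝ → ℂ) (x : ℝ) : ℂ := iteratedDeriv 2 u x + q x * u x

/-- `R(H) u = ∑_k c_k H^k u` for `R = ∑_k c_k w^k` and the Hill operator `H` with potential `q`. -/
noncomputable def polyHill (R : ℂ[X]) (q : ℝ → ℂ) (u : ℝ → ℂ) (x : ℝ) : ℂ :=
  ∑ k ∈ Finset.range (R.natDegree + 1), R.coeff k * (hill q)^[k] u x

end Pool.Agent.Work.MP_214325_an
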