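import Pool.Agent.Work.MP_214325_an.Defs

-- merged part: Pool.Agent.Work.MP_214325_an.Chain
section
open Complex

namespace Pool.Agent.Work.MP_214325_an

/-- `E` is the nonvanishing solution of `E' = α E`, `E 0 = 1`. -/
structure IsExp (α E : ℝ → ℂ) : Prop where
  deriv : ∀ x, HasDerivAt E (α x * E x) x
  zero : E 0 = 1
  ne : ∀ x, E x ≠ 0

theorem IsExp.uniq {α E z : ℝ → ℂ} (hE : IsExp α E) (hz : ∀ x, HasDerivAt z (α x * z x) x)
    (x : ℝ) : z x = z 0 * E x := by
  have h : ∀ x, HasDerivAt (fun x => z x / E x) 0 x := fun x => by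
    refine ((hz x).fun_div (hE.deriv x) (hE.ne x)).congr_deriv ?_
    ring
  have := is_const_of_deriv_eq_zero (fun x => (h x).differentiableAt) (fun x => (h x).deriv) x 0
  simp only [hE.zero, div_one] at this
  rw [← this, div_mul_cancel₀ _ (hE.ne x)]

theorem IsExp.exists {α E f : ℝ → ℂ} (hE : IsExp α E) (hf : Continuous f) (c : ℂ) :
    ∃ z : ℝ → ℂ, z 0 = c ∧ ∀ x, HasDerivAt z (α x * z x + f x) x := by
  have hEc : Continuous E := continuous_iff_continuousAt.mpr fun x => (hE.deriv x).continuousAt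
  have hc : Continuous fun x => f x / E x := hf.div hEc hE.ne
  refine ⟨fun x => E x * (c + ∫ t in (0:ℝ)..x, f t / E t), by simp [hE.zero], fun x => ?_⟩
  refine ((hE.deriv x).fun_mul ((hc.integral_hasStrictDerivAt 0 x).hasDerivAt.const_add c)).congr_deriv ?_
  have := hE.ne x
  field_simp

/-- a triangular first order system -/
structure Chain (α : Fin 4 → ℝ → ℂ) (z : Fin 4 → ℝ → ℂ) : Prop where
  d0 : ∀ x, HasDerivAt (z 0) (α 0 x * z 0 x + z 1 x) x
  d1 : ∀ x, HasDerivAt (z 1) (α 1 x * z 1 x + z 2 x) x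
  d2 : ∀ x, HasDerivAt (z 2) (α 2 x * z 2 x + z 3 x) x
  d3 : ∀ x, HasDerivAt (z 3) (α 3 x * z 3 x) x

theorem Chain.exists {α E : Fin 4 → ℝ → ℂ} (hE : ∀ i, IsExp (α i) (E i)) (c : Fin 4 → ℂ) :
    ∃ z : Fin 4 → ℝ → ℂ, Chain α z ∧ ∀ i, z i 0 = c i := by
  have cont : ∀ {z f : ℝ → ℂ}, (∀ x, HasDerivAt z (f x) x) → Continuous z := fun h =>
    continuous_iff_continuousAt.mpr fun x => (h x).continuousAt
  obtain ⟨z3, h30, h3⟩ := (hE 3).exists (f := fun _ => 0) continuous_const (c 3)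
  obtain ⟨z2, h20, h2⟩ := (hE 2).exists (cont h3) (c 2)
  obtain ⟨z1, h10, h1⟩ := (hE 1).exists (cont h2) (c 1)
  obtain ⟨z0, h00, h0⟩ := (hE 0).exists (cont h1) (c 0)
  refine ⟨![z0, z1, z2, z3], ⟨h0, h1, h2, fun x => by simpa using h3 x⟩, fun i => ?_⟩
  fin_cases i <;> simp [*]

theorem Chain.comb {α : Fin 4 → ℝ → ℂ} {z : Fin 4 → Fin 4 → ℝ → ℂ} (hz : ∀ j, Chain α (z j))
    (c : Fin 4 → ℂ) : Chain α (fun i x => ∑ j, z j i x * c j) := by
  refine ⟨fun x => ?_, fun x => ?_, fun x => ?_, fun x => ?_⟩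
  · refine (HasDerivAt.fun_sum fun j _ => ((hz j).d0 x).mul_const (c j)).congr_deriv ?_
    simp only [Fin.sum_univ_four]; ring
  · refine (HasDerivAt.fun_sum fun j _ => ((hz j).d1 x).mul_const (c j)).congr_deriv ?_
    simp only [Fin.sum_univ_four]; ring
  · refine (HasDerivAt.fun_sum fun j _ => ((hz j).d2 x).mul_const (c j)).congr_deriv ?_
    simp only [Fin.sum_univ_four]; ring
  · refine (HasDerivAt.fun_sum fun j _ => ((hz j).d3 x).mul_const (c j)).congr_deriv ?_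
    simp only [Fin.sum_univ_four]; ring

theorem Chain.tri {α E z : Fin 4 → ℝ → ℂ} (hE : ∀ i, IsExp (α i) (E i)) (hz : Chain α z)
    (i : Fin 4) (h0 : ∀ i', i < i' → z i' 0 = 0) (x : ℝ) : z i x = z i 0 * E i x := by
  have a3 : ∀ x, z 3 x = z 3 0 * E 3 x := (hE 3).uniq hz.d3
  have a2 : z 3 0 = 0 → ∀ x, z 2 x = z 2 0 * E 2 x := fun h => (hE 2).uniq fun x => by
    simpa [a3 x, h] using hz.d2 x
  have a1 : z 3 0 = 0 → z 2 0 = 0 → ∀ x, z 1 x = z 1 0 * E 1 x := fun h h' =>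
    (hE 1).uniq fun x => by simpa [a2 h x, h'] using hz.d1 x
  have a0 : z 3 0 = 0 → z 2 0 = 0 → z 1 0 = 0 → ∀ x, z 0 x = z 0 0 * E 0 x := fun h h' h'' =>
    (hE 0).uniq fun x => by simpa [a1 h h' x, h''] using hz.d0 x
  fin_cases i
  · exact a0 (h0 3 (by decide)) (h0 2 (by decide)) (h0 1 (by decide)) x
  · exact a1 (h0 3 (by decide)) (h0 2 (by decide)) x
  · exact a2 (h0 3 (by decide)) x
  · exact a3 x

open Matrix in
theorem det_of_chain {α E : Fin 4 → ℝ → ℂ} (hE : ∀ i, IsExp (α i) (E i))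
    {z : Fin 4 → Fin 4 → ℝ → ℂ} (hz : ∀ j, Chain α (z j)) {Q T : Matrix (Fin 4) (Fin 4) ℂ}
    (hQ : Q.det ≠ 0) (b : ℝ) (h0 : ∀ i j, z j i 0 = Q i j) (hb : ∀ i j, z j i b = (Q * T) i j)
    (r : ℂ) : (r • (1 : Matrix (Fin 4) (Fin 4) ℂ) - T).det = ∏ i, (r - E i b) := by
  have hu : IsUnit Q.det := isUnit_iff_ne_zero.mpr hQ
  set N := Q * T * Q⁻¹ with hN
  have hcol : ∀ i j, i = j ∨ j < i → N i j = (1 : Matrix (Fin 4) (Fin 4) ℂ) i j * E i b := by
    intro i j hij
    have hc := Chain.comb hz (fun l => Q⁻¹ l j)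
    have e0 : ∀ i', ∑ l, z l i' 0 * Q⁻¹ l j = (1 : Matrix (Fin 4) (Fin 4) ℂ) i' j := by
      intro i'
      rw [← Matrix.mul_nonsing_inv Q hu, Matrix.mul_apply]
      simp only [h0]
    have := hc.tri hE i (fun i' hi' => by
      rw [e0, Matrix.one_apply_ne]
      rcases hij with rfl | h
      · exact hi'.ne'
      · exact (h.trans hi').ne') b
    rw [e0] at this
    rw [← this, hN, Matrix.mul_apply]
    simp only [hb]
  have e : r • (1 : Matrix (Fin 4) (Fin 4) ℂ) - N = Q * (r • 1 - T) * Q⁻¹ := by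
    rw [Matrix.mul_sub, Matrix.sub_mul, Matrix.mul_smul, Matrix.mul_one, Matrix.smul_mul,
      Matrix.mul_nonsing_inv Q hu]
  have e2 : (r • (1 : Matrix (Fin 4) (Fin 4) ℂ) - N).det = (r • 1 - T).det := by
    rw [e, Matrix.det_mul, Matrix.det_mul, mul_right_comm, ← Matrix.det_mul,
      Matrix.mul_nonsing_inv Q hu, Matrix.det_one, one_mul]
  rw [← e2, Matrix.det_of_upperTriangular]
  · refine Finset.prod_congr rfl fun i _ => ?_
    simp [hcol i i (Or.inl rfl)]
  · intro i j hij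
    have hij' : j < i := hij
    simp [hcol i j (Or.inr hij'), Matrix.one_apply_ne hij'.ne']

/-- first order form of the fourth order equation -/
structure Sol (p : ℕ → ℝ → ℂ) (lam : ℂ) (w : Fin 4 → ℝ → ℂ) : Prop where
  d0 : ∀ x, HasDerivAt (w 0) (w 1 x) x
  d1 : ∀ x, HasDerivAt (w 1) (w 2 x) x
  d2 : ∀ x, HasDerivAt (w 2) (w 3 x) x
  d3 : ∀ x, HasDerivAt (w 3) (lam * w 0 x - (p 0 x * w 0 x + p 1 x * w 1 x + p 2 x * w 2 x)) x

theorem sol_of_contDiff {p : ℕ → ℝ → ℂ} {lam : ℂ} {u : ℝ → ℂ} (hu : ContDiff ℝ (4 : ℕ) u)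
    (h : ∀ x, applyL 4 p u x = lam * u x) : Sol p lam (fun k => iteratedDeriv k u) := by
  have hd : ∀ k : ℕ, k < 4 → ∀ x, HasDerivAt (iteratedDeriv k u) (iteratedDeriv (k + 1) u x) x := by
    intro k hk x
    rw [iteratedDeriv_succ]
    exact (hu.differentiable_iteratedDeriv k (by exact_mod_cast hk) x).hasDerivAt
  refine ⟨hd 0 (by norm_num), hd 1 (by norm_num), hd 2 (by norm_num), fun x => ?_⟩
  refine (hd 3 (by norm_num) x).congr_deriv ?_
  have := h x
  simp only [applyL, Finset.sum_range_succ, Finset.sum_range_zero, zero_add,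
    iteratedDeriv_zero, show 4 - 1 = 3 from rfl] at this
  show iteratedDeriv 4 u x = lam * iteratedDeriv 0 u x - (p 0 x * iteratedDeriv 0 u x +
    p 1 x * iteratedDeriv 1 u x + p 2 x * iteratedDeriv 2 u x)
  rw [iteratedDeriv_zero]
  linear_combination this

theorem Sol.jets {p : ℕ → ℝ → ℂ} {lam : ℂ} {w : Fin 4 → ℝ → ℂ} (h : Sol p lam w)
    (hp : ∀ k, Continuous (p k)) :
    ContDiff ℝ (4 : ℕ) (w 0) ∧ (∀ x, applyL 4 p (w 0) x = lam * w 0 x) ∧
      ∀ k : Fin 4, iteratedDeriv k (w 0) = w k := by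
  have e0 : deriv (w 0) = w 1 := funext fun x => (h.d0 x).deriv
  have e1 : deriv (w 1) = w 2 := funext fun x => (h.d1 x).deriv
  have e2 : deriv (w 2) = w 3 := funext fun x => (h.d2 x).deriv
  have e3 : deriv (w 3) = fun x => lam * w 0 x - (p 0 x * w 0 x + p 1 x * w 1 x + p 2 x * w 2 x) :=
    funext fun x => (h.d3 x).deriv
  have f0 : Differentiable ℝ (w 0) := fun x => (h.d0 x).differentiableAt
  have f1 : Differentiable ℝ (w 1) := fun x => (h.d1 x).differentiableAt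
  have f2 : Differentiable ℝ (w 2) := fun x => (h.d2 x).differentiableAt
  have f3 : Differentiable ℝ (w 3) := fun x => (h.d3 x).differentiableAt
  have i1 : iteratedDeriv 1 (w 0) = w 1 := by rw [iteratedDeriv_one, e0]
  have i2 : iteratedDeriv 2 (w 0) = w 2 := by rw [iteratedDeriv_succ, i1, e1]
  have i3 : iteratedDeriv 3 (w 0) = w 3 := by rw [iteratedDeriv_succ, i2, e2]
  have i4 : iteratedDeriv 4 (w 0) = deriv (w 3) := by rw [iteratedDeriv_succ, i3]
  refine ⟨?_, fun x => ?_, fun k => ?_⟩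
  · have c3 : ContDiff ℝ (1 : ℕ) (w 3) := by
      rw [Nat.cast_one, contDiff_one_iff_deriv, e3]
      have := f0.continuous
      have := f1.continuous
      have := f2.continuous
      have := hp 0
      have := hp 1
      have := hp 2
      exact ⟨f3, by fun_prop⟩
    have c2 : ContDiff ℝ (2 : ℕ) (w 2) := by
      rw [show ((2 : ℕ) : WithTop ℕ∞) = (1 : ℕ) + 1 by norm_num, contDiff_succ_iff_deriv, e2]
      exact ⟨f2, by simp, c3⟩
    have c1 : ContDiff ℝ (3 : ℕ) (w 1) := by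
      rw [show ((3 : ℕ) : WithTop ℕ∞) = (2 : ℕ) + 1 by norm_num, contDiff_succ_iff_deriv, e1]
      exact ⟨f1, by simp, c2⟩
    rw [show ((4 : ℕ) : WithTop ℕ∞) = (3 : ℕ) + 1 by norm_num, contDiff_succ_iff_deriv, e0]
    exact ⟨f0, by simp, c1⟩
  · simp only [applyL, Finset.sum_range_succ, Finset.sum_range_zero, zero_add,
      iteratedDeriv_zero, show 4 - 1 = 3 from rfl, i1, i2, i4, e3]
    ring
  · fin_cases k
    · exact iteratedDeriv_zero
    · exact i1
    · exact i2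
    · exact i3

end Pool.Agent.Work.MP_214325_an
end

-- merged part: Pool.Agent.Work.MP_214325_an.Example
section
open Complex
open scoped ContDiff

namespace Pool.Agent.Work.MP_214325_an

theorem main_of {p : ℕ → ℝ → ℂ} (hp : ∀ k, Continuous (p k)) {lam : ℂ} {b : ℝ}
    {α E : Fin 4 → ℝ → ℂ} (hE : ∀ i, IsExp (α i) (E i)) {Q : Matrix (Fin 4) (Fin 4) ℂ}
    (hQ : Q.det ≠ 0)
    (h1 : ∀ w, Sol p lam w → ∃ z, Chain α z ∧ (∀ i, z i 0 = ∑ j, Q i j * w j 0) ∧
      (∀ i, z i b = ∑ j, Q i j * w j b))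
    (h2 : ∀ z, Chain α z → ∃ w, Sol p lam w ∧ ∀ i, z i 0 = ∑ j, Q i j * w j 0) :
    (∃ u, IsFundSystem 4 p lam u) ∧ ∀ u, IsFundSystem 4 p lam u → ∀ r : ℂ,
      (r • (1 : Matrix (Fin 4) (Fin 4) ℂ) - floquet b u).det = ∏ i, (r - E i b) := by
  constructor
  · have : ∀ j : Fin 4, ∃ w, Sol p lam w ∧ ∀ k, w k 0 = if j = k then 1 else 0 := by
      intro j
      obtain ⟨z, hz, hz0⟩ := Chain.exists hE (fun i => Q i j)
      obtain ⟨w, hw, hw0⟩ := h2 z hz
      refine ⟨w, hw, fun k => ?_⟩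
      have hinj : Function.Injective Q.mulVec :=
        Matrix.mulVec_injective_iff_isUnit.mpr ((Matrix.isUnit_iff_isUnit_det Q).mpr
          (isUnit_iff_ne_zero.mpr hQ))
      have : Q.mulVec (fun k => w k 0) = Q.mulVec (fun k => if j = k then 1 else 0) := by
        funext i
        simp only [Matrix.mulVec, dotProduct, ← hw0, hz0]
        simp
      exact congrFun (hinj this) k
    choose w hw hw0 using this
    refine ⟨fun j => w j 0, fun j => ?_⟩
    obtain ⟨a1, a2, a3⟩ := (hw j).jets hp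
    exact ⟨a1, a2, fun k => by rw [a3, hw0]⟩
  · intro u hu r
    have hs := fun j => h1 _ (sol_of_contDiff (hu j).1 (hu j).2.1)
    choose z hz hz0 hzb using hs
    refine det_of_chain hE hz hQ b (fun i j => ?_) (fun i j => ?_) r
    · rw [hz0]
      simp [(hu j).2.2]
    · rw [hzb, Matrix.mul_apply]
      rfl

/-- `1 / (2 + cos x)` -/
noncomputable def gR (x : ℝ) : ℝ := 1 / (2 + Real.cos x)
/-- logarithmic derivative of `2 + cos x` -/
noncomputable def vR (x : ℝ) : ℝ := -Real.sin x / (2 + Real.cos x)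

theorem den_pos (x : ℝ) : 0 < 2 + Real.cos x := by linarith [Real.neg_one_le_cos x]

/-- the coefficients -/
noncomputable def pR : ℕ → ℝ → ℝ
  | 0 => fun x => (2 - 8 * gR x + 6 * vR x ^ 2) * (-1 + 2 * gR x - vR x ^ 2) + 8 * vR x ^ 2 * gR x
      - vR x * (2 * vR x - 8 * vR x * gR x + 2 * vR x ^ 3)
  | 1 => fun x => 8 * vR x - 28 * vR x * gR x + 8 * vR x ^ 3
  | 2 => fun x => -3 + 8 * gR x - 4 * vR x ^ 2
  | _ + 3 => fun _ => 0

theorem contDiff_gR : ContDiff ℝ ω gR := by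
  unfold gR
  exact contDiff_const.div (by fun_prop) fun x => (den_pos x).ne'

theorem contDiff_vR : ContDiff ℝ ω vR := by
  unfold vR
  exact ContDiff.div (by fun_prop) (by fun_prop) fun x => (den_pos x).ne'

theorem contDiff_pR (k : ℕ) : ContDiff ℝ ω (pR k) := by
  have h1 := contDiff_gR
  have h2 := contDiff_vR
  match k with
  | 0 => unfold pR; fun_prop
  | 1 => unfold pR; fun_prop
  | 2 => unfold pR; fun_prop
  | _ + 3 => exact contDiff_const

theorem periodic_pR (k : ℕ) : Function.Periodic (pR k) (2 * Real.pi) := by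
  intro x
  have h1 : gR (x + 2 * Real.pi) = gR x := by simp [gR]
  have h2 : vR (x + 2 * Real.pi) = vR x := by simp [vR]
  match k with
  | 0 => simp only [pR, h1, h2]
  | 1 => simp only [pR, h1, h2]
  | 2 => simp only [pR, h1, h2]
  | _ + 3 => rfl

/-- complex versions -/
noncomputable def g (x : ℝ) : ℂ := gR x
/-- complex versions -/
noncomputable def v (x : ℝ) : ℂ := vR x
/-- complex versions -/
noncomputable def p (k : ℕ) (x : ℝ) : ℂ := pR k x

theorem continuous_p (k : ℕ) : Continuous (p k) :=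
  continuous_ofReal.comp (contDiff_pR k).continuous

theorem p0 (x : ℝ) : p 0 x = (2 - 8 * g x + 6 * v x ^ 2) * (-1 + 2 * g x - v x ^ 2) +
    8 * v x ^ 2 * g x - v x * (2 * v x - 8 * v x * g x + 2 * v x ^ 3) := by
  simp [p, pR, g, v]
theorem p1 (x : ℝ) : p 1 x = 8 * v x - 28 * v x * g x + 8 * v x ^ 3 := by simp [p, pR, g, v]
theorem p2 (x : ℝ) : p 2 x = -3 + 8 * g x - 4 * v x ^ 2 := by simp [p, pR, g, v]

theorem dg (x : ℝ) : HasDerivAt g (-(v x * g x)) x := by
  have h := (hasDerivAt_const x (1:ℝ)).fun_div ((Real.hasDerivAt_cos x).const_add 2) (den_pos x).ne'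
  refine h.ofReal_comp.congr_deriv ?_
  have := (den_pos x).ne'
  simp only [g, v, gR, vR, ← ofReal_mul, ← ofReal_neg]
  congr 1
  field_simp
  ring

theorem dv (x : ℝ) : HasDerivAt v (-1 + 2 * g x - v x ^ 2) x := by
  have h := (Real.hasDerivAt_sin x).fun_neg.fun_div ((Real.hasDerivAt_cos x).const_add 2)
    (den_pos x).ne'
  refine h.ofReal_comp.congr_deriv ?_
  have := (den_pos x).ne'
  have e : (-1 + 2 * g x - v x ^ 2) = ((-1 + 2 * gR x - vR x ^ 2 : ℝ) : ℂ) := by simp [g, v]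
  rw [e]
  congr 1
  simp only [gR, vR]
  field_simp
  ring

/-- `e ^ (i x)` -/
noncomputable def ee (x : ℝ) : ℂ := exp (x * I)

theorem dee (x : ℝ) : HasDerivAt ee (I * ee x) x := by
  have h : HasDerivAt (fun z : ℂ => exp (z * I)) (exp (x * I) * (1 * I)) (x : ℂ) :=
    ((hasDerivAt_id (x : ℂ)).mul_const I).cexp
  refine h.comp_ofReal.congr_deriv ?_
  simp [ee, mul_comm]

theorem ee_ne (x : ℝ) : 2 * ee x + 1 ≠ 0 := by
  intro h
  have h1 : 2 * ee x = -1 := by linear_combination h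
  have := congrArg norm h1
  simp [ee, norm_exp_ofReal_mul_I] at this

/-- logarithmic derivative of `2 e ^ (i x) + 1` -/
noncomputable def s (x : ℝ) : ℂ := 2 * I * ee x / (2 * ee x + 1)

theorem ds (x : ℝ) : HasDerivAt s (I * s x - s x ^ 2) x := by
  have h := ((dee x).const_mul (2 * I)).fun_div (((dee x).const_mul 2).add_const 1) (ee_ne x)
  refine h.congr_deriv ?_
  have := ee_ne x
  simp only [s]
  field_simp

theorem den_ne (x : ℝ) : 2 + cos (x : ℂ) ≠ 0 := by
  have := (den_pos x).ne'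
  exact_mod_cast this

theorem g_eq (x : ℝ) : g x = 1 / (2 + cos (x : ℂ)) := by simp [g, gR]
theorem v_eq (x : ℝ) : v x = -sin (x : ℂ) / (2 + cos (x : ℂ)) := by simp [v, vR]

theorem s_rel (x : ℝ) : s x * (v x - I) = 2 * g x := by
  have h1 := ee_ne x
  have h2 := den_ne x
  rw [s, g_eq, v_eq]
  field_simp
  simp only [ee, exp_mul_I] at *
  have h3 := sin_sq_add_cos_sq (x : ℂ)
  have h4 := I_mul_I
  linear_combination h3 +
    (-(sin (x:ℂ)) ^ 2 - 2 * cos (x:ℂ) - cos (x:ℂ) ^ 2 - 2 * sin (x:ℂ) * I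
      - cos (x:ℂ) * sin (x:ℂ) * I) * h4

/-- intermediate first order system -/
structure Sys (lam : ℂ) (m : Fin 4 → ℝ → ℂ) : Prop where
  d0 : ∀ x, HasDerivAt (m 0) (m 1 x) x
  d1 : ∀ x, HasDerivAt (m 1) (m 2 x - v x * m 1 x - (-1 + 4 * g x - v x ^ 2) * m 0 x) x
  d2 : ∀ x, HasDerivAt (m 2) (m 3 x) x
  d3 : ∀ x, HasDerivAt (m 3) (v x * m 3 x + lam * m 0 x) x

theorem dc0 (x : ℝ) : HasDerivAt (fun x => -1 + 4 * g x - v x ^ 2)
    (2 * v x - 8 * v x * g x + 2 * v x ^ 3) x := by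
  refine ((((dg x).const_mul 4).const_add (-1)).fun_sub ((dv x).fun_pow 2)).congr_deriv ?_
  push_cast
  ring

theorem dc1 (x : ℝ) : HasDerivAt (fun x => 2 * v x - 8 * v x * g x + 2 * v x ^ 3)
    ((2 - 8 * g x + 6 * v x ^ 2) * (-1 + 2 * g x - v x ^ 2) + 8 * v x ^ 2 * g x) x := by
  refine ((((dv x).const_mul 2).fun_sub (((dv x).const_mul 8).fun_mul (dg x))).fun_add
    (((dv x).fun_pow 3).const_mul 2)).congr_deriv ?_
  push_cast
  ring

theorem dc2 (x : ℝ) : HasDerivAt (fun x => -2 + 6 * g x - 2 * v x ^ 2)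
    (4 * v x - 14 * v x * g x + 4 * v x ^ 3) x := by
  refine ((((dg x).const_mul 6).const_add (-2)).fun_sub
    (((dv x).fun_pow 2).const_mul 2)).congr_deriv ?_
  push_cast
  ring

/-- jets to intermediate variables -/
noncomputable def toSys (w : Fin 4 → ℝ → ℂ) : Fin 4 → ℝ → ℂ :=
  ![w 0, w 1, fun x => w 2 x + v x * w 1 x + (-1 + 4 * g x - v x ^ 2) * w 0 x,
    fun x => w 3 x + v x * w 2 x + (-2 + 6 * g x - 2 * v x ^ 2) * w 1 x +
      (2 * v x - 8 * v x * g x + 2 * v x ^ 3) * w 0 x]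

theorem Sol.toSys {lam : ℂ} {w : Fin 4 → ℝ → ℂ} (h : Sol p lam w) : Sys lam (toSys w) := by
  refine ⟨h.d0, fun x => (h.d1 x).congr_deriv ?_, fun x => ?_, fun x => ?_⟩
  · simp [MP_214325_an.toSys]; ring
  · refine (((h.d2 x).fun_add ((dv x).fun_mul (h.d1 x))).fun_add
      ((dc0 x).fun_mul (h.d0 x))).congr_deriv ?_
    simp [MP_214325_an.toSys]; ring
  · refine ((((h.d3 x).fun_add ((dv x).fun_mul (h.d2 x))).fun_add
      ((dc2 x).fun_mul (h.d1 x))).fun_add ((dc1 x).fun_mul (h.d0 x))).congr_deriv ?_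
    simp [MP_214325_an.toSys, p0, p1, p2]; ring

theorem Sys.exists_sol {lam : ℂ} {m : Fin 4 → ℝ → ℂ} (h : Sys lam m) :
    ∃ w, Sol p lam w ∧ toSys w = m := by
  have h2 : ∀ x, HasDerivAt (fun x => m 2 x - v x * m 1 x - (-1 + 4 * g x - v x ^ 2) * m 0 x)
      (m 3 x - v x * (m 2 x - v x * m 1 x - (-1 + 4 * g x - v x ^ 2) * m 0 x)
        - (-2 + 6 * g x - 2 * v x ^ 2) * m 1 x - (2 * v x - 8 * v x * g x + 2 * v x ^ 3) * m 0 x) x :=
    fun x => (((h.d2 x).fun_sub ((dv x).fun_mul (h.d1 x))).fun_sub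
      ((dc0 x).fun_mul (h.d0 x))).congr_deriv (by ring)
  refine ⟨![m 0, m 1, fun x => m 2 x - v x * m 1 x - (-1 + 4 * g x - v x ^ 2) * m 0 x,
    fun x => m 3 x - v x * (m 2 x - v x * m 1 x - (-1 + 4 * g x - v x ^ 2) * m 0 x)
        - (-2 + 6 * g x - 2 * v x ^ 2) * m 1 x - (2 * v x - 8 * v x * g x + 2 * v x ^ 3) * m 0 x],
    ⟨h.d0, h.d1, h2, fun x => ?_⟩, ?_⟩
  · refine ((((h.d3 x).fun_sub ((dv x).fun_mul (h2 x))).fun_sub
      ((dc2 x).fun_mul (h.d1 x))).fun_sub ((dc1 x).fun_mul (h.d0 x))).congr_deriv ?_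
    simp [p0, p1, p2]; ring
  · funext i x
    fin_cases i <;> simp [toSys] <;> ring

theorem v0 : v 0 = 0 := by simp [v, vR]
theorem g0 : g 0 = 1 / 3 := by simp [g, gR]; norm_num
theorem s0 : s 0 = 2 * I / 3 := by simp [s, ee]; norm_num
theorem vb : v (2 * Real.pi) = 0 := by simp [v, vR]
theorem gb : g (2 * Real.pi) = 1 / 3 := by simp [g, gR]; norm_num
theorem eeb : ee (2 * Real.pi) = 1 := by simp [ee]
theorem sb : s (2 * Real.pi) = 2 * I / 3 := by simp [s, eeb]; norm_num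

theorem du (x : ℝ) : HasDerivAt (fun x : ℝ => 2 + cos (x : ℂ)) (v x * (2 + cos (x : ℂ))) x := by
  refine ((Complex.hasDerivAt_cos (x : ℂ)).const_add 2).comp_ofReal.congr_deriv ?_
  have := den_ne x
  rw [v_eq]
  field_simp

theorem dW (x : ℝ) : HasDerivAt (fun x : ℝ => 2 * ee x + 1) (s x * (2 * ee x + 1)) x := by
  refine (((dee x).const_mul 2).add_const 1).congr_deriv ?_
  have := ee_ne x
  rw [s]
  field_simp

theorem case_zero : (∃ u, IsFundSystem 4 p 0 u) ∧ ∀ u, IsFundSystem 4 p 0 u → ∀ r : ℂ,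
    (r • (1 : Matrix (Fin 4) (Fin 4) ℂ) - floquet (2 * Real.pi) u).det = (r - 1) ^ 4 := by
  have hE : ∀ i, IsExp (![fun x => s x - v x, fun x => -s x, fun _ => 0, v] i)
      (![fun x : ℝ => (2 * ee x + 1) / (2 + cos (x : ℂ)), fun x => 3 / (2 * ee x + 1), fun _ => 1,
        fun x : ℝ => (2 + cos (x : ℂ)) / 3] i) := by
    intro i
    fin_cases i
    · refine ⟨fun x => ((dW x).fun_div (du x) (den_ne x)).congr_deriv ?_, by simp [ee]; norm_num,
        fun x => div_ne_zero (ee_ne x) (den_ne x)⟩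
      have := den_ne x
      simp
      field_simp
    · refine ⟨fun x => ((hasDerivAt_const x (3:ℂ)).fun_div (dW x) (ee_ne x)).congr_deriv ?_,
        by simp [ee]; norm_num, fun x => div_ne_zero (by norm_num) (ee_ne x)⟩
      have := ee_ne x
      simp
      field_simp
    · exact ⟨fun x => (hasDerivAt_const x (1:ℂ)).congr_deriv (by simp), rfl, fun x => one_ne_zero⟩
    · refine ⟨fun x => ((du x).div_const 3).congr_deriv ?_, by simp; norm_num,
        fun x => div_ne_zero (den_ne x) (by norm_num)⟩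
      simp
      ring
  have := main_of continuous_p (lam := 0) (b := 2 * Real.pi) hE
    (Q := !![1, 0, 0, 0; -(2 * I / 3), 1, 0, 0; 1 / 3, 0, 1, 0; 0, 0, 0, 1])
    (by simp [Matrix.det_succ_row_zero, Fin.sum_univ_succ]) (fun w hw => ?_) (fun z hz => ?_)
  · refine ⟨this.1, fun u hu r => ?_⟩
    rw [this.2 u hu r]
    simp [Fin.prod_univ_four, eeb]
    norm_num
    ring
  · have h := hw.toSys
    refine ⟨![toSys w 0, fun x => toSys w 1 x + (v x - s x) * toSys w 0 x, toSys w 2, toSys w 3],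
      ⟨fun x => (h.d0 x).congr_deriv ?_, fun x => ?_, fun x => (h.d2 x).congr_deriv ?_,
        fun x => (h.d3 x).congr_deriv ?_⟩, fun i => ?_, fun i => ?_⟩
    · simp; ring
    · refine ((h.d1 x).fun_add (((dv x).fun_sub (ds x)).fun_mul (h.d0 x))).congr_deriv ?_
      simp
      linear_combination (toSys w 0 x) * s_rel x
    · simp
    · simp
    · fin_cases i <;> simp [toSys, Fin.sum_univ_four, v0, g0, s0] <;> first | ring1 | norm_num
    · fin_cases i <;> simp [toSys, Fin.sum_univ_four, vb, gb, sb] <;> first | ring1 | norm_num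
  · have h : Sys 0 ![z 0, fun x => z 1 x - (v x - s x) * z 0 x, z 2, z 3] := by
      refine ⟨fun x => (hz.d0 x).congr_deriv ?_, fun x => ?_, fun x => (hz.d2 x).congr_deriv ?_,
        fun x => (hz.d3 x).congr_deriv ?_⟩
      · simp; ring
      · refine ((hz.d1 x).fun_sub (((dv x).fun_sub (ds x)).fun_mul (hz.d0 x))).congr_deriv ?_
        simp
        linear_combination (-(z 0 x)) * s_rel x
      · simp
      · simp
    obtain ⟨w, hw, hwm⟩ := h.exists_sol
    have e0 := congrFun (congrFun hwm 0) 0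
    have e1 := congrFun (congrFun hwm 1) 0
    have e2 := congrFun (congrFun hwm 2) 0
    have e3 := congrFun (congrFun hwm 3) 0
    simp [toSys, v0, g0, s0] at e0 e1 e2 e3
    refine ⟨w, hw, fun i => ?_⟩
    fin_cases i <;> simp [Fin.sum_univ_four]
    · exact e0.symm
    · linear_combination -e1 + (2 * I / 3) * e0
    · linear_combination -e2
    · linear_combination -e3

theorem isExp_const (k : ℂ) : IsExp (fun _ => k) (fun x : ℝ => exp (k * x)) := by
  refine ⟨fun x => ?_, by simp, fun x => exp_ne_zero _⟩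
  have h : HasDerivAt (fun z : ℂ => exp (k * z)) (exp (k * x) * (k * 1)) (x : ℂ) :=
    ((hasDerivAt_id (x : ℂ)).const_mul k).cexp
  exact h.comp_ofReal.congr_deriv (by ring)

theorem case_ne {lam k1 k2 : ℂ} (hl : lam ≠ 0) (h1 : k1 ^ 2 + k2 ^ 2 = -1)
    (h2 : k1 ^ 2 * k2 ^ 2 = -lam) :
    (∃ u, IsFundSystem 4 p lam u) ∧ ∀ u, IsFundSystem 4 p lam u → ∀ r : ℂ,
    (r • (1 : Matrix (Fin 4) (Fin 4) ℂ) - floquet (2 * Real.pi) u).det =
      (r - exp (k1 * (2 * Real.pi))) * (r - exp (-k1 * (2 * Real.pi))) *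
        ((r - exp (k2 * (2 * Real.pi))) * (r - exp (-k2 * (2 * Real.pi)))) := by
  have hE : ∀ i : Fin 4, IsExp (fun _ => ![k1, -k1, k2, -k2] i)
      (fun x : ℝ => exp (![k1, -k1, k2, -k2] i * x)) := fun i => isExp_const _
  have := main_of continuous_p (lam := lam) (b := 2 * Real.pi) hE
    (Q := !![0, 0, 0, 1; lam, 0, 0, -k1; 0, lam, 0, -1 / 3 - k1 ^ 2;
      lam / 3 - lam - k1 ^ 2 * lam, -(k2 * lam), lam, k2 / 3 + k2 * k1 ^ 2])
    (by simp [Matrix.det_succ_row_zero, Fin.sum_univ_succ, Fin.succAbove, hl])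
    (fun w hw => ?_) (fun z hz => ?_)
  · refine ⟨this.1, fun u hu r => ?_⟩
    rw [this.2 u hu r]
    simp [Fin.prod_univ_four]
    ring
  · have h := hw.toSys
    set m := toSys w with hm
    have y1 : ∀ x, HasDerivAt (fun x => v x * m 3 x + lam * m 0 x)
        ((2 * g x - 1) * m 3 x + lam * (m 1 x + v x * m 0 x)) x := fun x =>
      (((dv x).fun_mul (h.d3 x)).fun_add ((h.d0 x).const_mul lam)).congr_deriv (by ring)
    have y2 : ∀ x, HasDerivAt (fun x => (2 * g x - 1) * m 3 x + lam * (m 1 x + v x * m 0 x))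
        (lam * m 2 x - (v x * m 3 x + lam * m 0 x)) x := fun x =>
      (((((dg x).const_mul 2).sub_const 1).fun_mul (h.d3 x)).fun_add
        (((h.d1 x).fun_add ((dv x).fun_mul (h.d0 x))).const_mul lam)).congr_deriv (by ring)
    have y3 : ∀ x, HasDerivAt (fun x => lam * m 2 x - (v x * m 3 x + lam * m 0 x))
        (lam * m 3 x - ((2 * g x - 1) * m 3 x + lam * (m 1 x + v x * m 0 x))) x := fun x =>
      ((h.d2 x).const_mul lam).fun_sub (y1 x)
    refine ⟨![m 3, fun x => (v x * m 3 x + lam * m 0 x) - k1 * m 3 x,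
      fun x => ((2 * g x - 1) * m 3 x + lam * (m 1 x + v x * m 0 x)) - k1 ^ 2 * m 3 x,
      fun x => (lam * m 2 x - (v x * m 3 x + lam * m 0 x)) - k1 ^ 2 * (v x * m 3 x + lam * m 0 x)
        - k2 * ((2 * g x - 1) * m 3 x + lam * (m 1 x + v x * m 0 x)) + k2 * k1 ^ 2 * m 3 x],
      ⟨fun x => (h.d3 x).congr_deriv ?_,
        fun x => ((y1 x).fun_sub ((h.d3 x).const_mul k1)).congr_deriv ?_,
        fun x => ((y2 x).fun_sub ((h.d3 x).const_mul (k1 ^ 2))).congr_deriv ?_,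
        fun x => ((((y3 x).fun_sub ((y1 x).const_mul (k1 ^ 2))).fun_sub
          ((y2 x).const_mul k2)).fun_add ((h.d3 x).const_mul (k2 * k1 ^ 2))).congr_deriv ?_⟩,
      fun i => ?_, fun i => ?_⟩
    · simp
    · simp; ring
    · simp; ring
    · simp
      linear_combination (m 3 x) * h2 -
        ((2 * g x - 1) * m 3 x + lam * (m 1 x + v x * m 0 x)) * h1
    · fin_cases i <;> simp [hm, toSys, Fin.sum_univ_four, v0, g0] <;> first | ring1 | norm_num
    · fin_cases i <;> simp [hm, toSys, Fin.sum_univ_four, vb, gb] <;> first | ring1 | norm_num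
  · have y0 : ∀ x, HasDerivAt (z 0) (z 1 x + k1 * z 0 x) x := fun x =>
      (hz.d0 x).congr_deriv (by simp; ring)
    have y1 : ∀ x, HasDerivAt (fun x => z 1 x + k1 * z 0 x) (z 2 x + k1 ^ 2 * z 0 x) x := fun x =>
      ((hz.d1 x).fun_add ((y0 x).const_mul k1)).congr_deriv (by simp; ring)
    have y2 : ∀ x, HasDerivAt (fun x => z 2 x + k1 ^ 2 * z 0 x)
        (z 3 x + k1 ^ 2 * (z 1 x + k1 * z 0 x) + k2 * z 2 x) x := fun x =>
      ((hz.d2 x).fun_add ((y0 x).const_mul (k1 ^ 2))).congr_deriv (by simp; ring)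
    have y3 : ∀ x, HasDerivAt (fun x => z 3 x + k1 ^ 2 * (z 1 x + k1 * z 0 x) + k2 * z 2 x)
        (lam * z 0 x - (z 2 x + k1 ^ 2 * z 0 x)) x := fun x =>
      (((hz.d3 x).fun_add ((y1 x).const_mul (k1 ^ 2))).fun_add
        ((hz.d2 x).const_mul k2)).congr_deriv (by
          simp
          linear_combination (z 2 x + k1 ^ 2 * z 0 x) * h1 - (z 0 x) * h2)
    have m0 : ∀ x, HasDerivAt (fun x => ((z 1 x + k1 * z 0 x) - v x * z 0 x) / lam)
        (((z 2 x + k1 ^ 2 * z 0 x) - (2 * g x - 1) * z 0 x) / lam -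
          v x * (((z 1 x + k1 * z 0 x) - v x * z 0 x) / lam)) x := fun x =>
      (((y1 x).fun_sub ((dv x).fun_mul (y0 x))).div_const lam).congr_deriv (by ring)
    have h : Sys lam ![fun x => ((z 1 x + k1 * z 0 x) - v x * z 0 x) / lam,
        fun x => ((z 2 x + k1 ^ 2 * z 0 x) - (2 * g x - 1) * z 0 x) / lam -
          v x * (((z 1 x + k1 * z 0 x) - v x * z 0 x) / lam),
        fun x => ((z 3 x + k1 ^ 2 * (z 1 x + k1 * z 0 x) + k2 * z 2 x) +
          (z 1 x + k1 * z 0 x)) / lam, z 0] := by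
      refine ⟨m0, fun x => ?_, fun x => ?_, fun x => (y0 x).congr_deriv ?_⟩
      · refine ((((y2 x).fun_sub ((((dg x).const_mul 2).sub_const 1).fun_mul (y0 x))).div_const
          lam).fun_sub ((dv x).fun_mul (m0 x))).congr_deriv ?_
        simp; ring
      · refine (((y3 x).fun_add (y1 x)).div_const lam).congr_deriv ?_
        simp; field_simp
      · simp; field_simp; ring
    obtain ⟨w, hw, hwm⟩ := h.exists_sol
    have e0 := congrFun (congrFun hwm 0) 0
    have e1 := congrFun (congrFun hwm 1) 0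
    have e2 := congrFun (congrFun hwm 2) 0
    have e3 := congrFun (congrFun hwm 3) 0
    simp [toSys, v0, g0, eq_div_iff hl] at e0 e1 e2 e3
    refine ⟨w, hw, fun i => ?_⟩
    fin_cases i <;> simp [Fin.sum_univ_four]
    · linear_combination -e3
    · linear_combination -e0 + k1 * e3
    · linear_combination -e1 + (1 / 3 + k1 ^ 2) * e3
    · linear_combination -e2 + (1 + k1 ^ 2) * e0 + k2 * e1 - (k2 / 3 + k2 * k1 ^ 2) * e3

/-- the entire function with `disc (k ^ 2) = 2 cosh (2 π k)` -/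
noncomputable def disc (w : ℂ) : ℂ :=
  ∑' n : ℕ, 2 * (((2 * Real.pi : ℂ) ^ 2 * w) ^ n / ((2 * n).factorial : ℂ))

theorem disc_sq (k : ℂ) : disc (k ^ 2) = exp (k * (2 * Real.pi)) + exp (-k * (2 * Real.pi)) := by
  have h := (Complex.hasSum_cosh (k * (2 * Real.pi))).mul_left 2
  rw [Complex.two_cosh] at h
  rw [neg_mul, ← h.tsum_eq, disc]
  congr 1
  funext n
  rw [pow_mul]
  congr 3
  ring

theorem differentiable_disc : Differentiable ℂ disc := by
  intro w
  set ρ : ℝ := ‖w‖ + 1 with hρ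
  have hρ0 : 0 ≤ ρ := by positivity
  have hs := ((Real.hasSum_cosh (2 * Real.pi * Real.sqrt ρ)).mul_left 2).summable
  have := Complex.differentiableOn_tsum_of_summable_norm (U := Metric.ball 0 ρ)
    (F := fun (n : ℕ) (w : ℂ) => 2 * (((2 * Real.pi : ℂ) ^ 2 * w) ^ n / ((2 * n).factorial : ℂ)))
    hs (fun n => by fun_prop) Metric.isOpen_ball (fun n z hz => by
      rw [mem_ball_zero_iff] at hz
      rw [pow_mul, mul_pow (2 * Real.pi) (Real.sqrt ρ), Real.sq_sqrt hρ0]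
      simp only [norm_mul, norm_div, norm_pow, Complex.norm_ofNat, Complex.norm_natCast,
        Complex.norm_real, Real.norm_eq_abs, abs_of_pos Real.pi_pos]
      gcongr)
  exact this.differentiableAt (Metric.isOpen_ball.mem_nhds (by simp [hρ]))

open Polynomial in
theorem curve (lam : ℂ) : (∃ u, IsFundSystem 4 p lam u) ∧ ∀ u, IsFundSystem 4 p lam u →
    ∀ r : ℂ, r ≠ 0 → (r • (1 : Matrix (Fin 4) (Fin 4) ℂ) - floquet (2 * Real.pi) u).det =
      r ^ 2 * ((X ^ 2 + X - C lam).roots.map fun w => r + r⁻¹ - disc w).prod := by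
  have key : ∀ k1 k2 : ℂ, k1 ^ 2 + k2 ^ 2 = -1 → k1 ^ 2 * k2 ^ 2 = -lam → ∀ r : ℂ, r ≠ 0 →
      (r - exp (k1 * (2 * Real.pi))) * (r - exp (-k1 * (2 * Real.pi))) *
        ((r - exp (k2 * (2 * Real.pi))) * (r - exp (-k2 * (2 * Real.pi)))) =
      r ^ 2 * ((X ^ 2 + X - C lam).roots.map fun w => r + r⁻¹ - disc w).prod := by
    intro k1 k2 h1 h2 r hr
    have e : (X ^ 2 + X - C lam : ℂ[X]) = (X - C (k1 ^ 2)) * (X - C (k2 ^ 2)) := by
      have a1 := congrArg (C : ℂ → ℂ[X]) h1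
      have a2 := congrArg (C : ℂ → ℂ[X]) h2
      simp only [map_add, map_mul, map_neg, map_one] at a1 a2
      linear_combination X * a1 - a2
    rw [e, roots_mul (mul_ne_zero (X_sub_C_ne_zero _) (X_sub_C_ne_zero _)), roots_X_sub_C,
      roots_X_sub_C]
    simp only [Multiset.singleton_add, Multiset.map_cons, Multiset.map_singleton,
      Multiset.prod_cons, Multiset.prod_singleton, disc_sq]
    have b1 : exp (k1 * (2 * Real.pi)) * exp (-k1 * (2 * Real.pi)) = 1 := by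
      rw [← exp_add]; simp
    have b2 : exp (k2 * (2 * Real.pi)) * exp (-k2 * (2 * Real.pi)) = 1 := by
      rw [← exp_add]; simp
    have c1 : (r - exp (k1 * (2 * Real.pi))) * (r - exp (-k1 * (2 * Real.pi))) =
        r * (r + r⁻¹ - (exp (k1 * (2 * Real.pi)) + exp (-k1 * (2 * Real.pi)))) := by
      linear_combination b1 - mul_inv_cancel₀ hr
    have c2 : (r - exp (k2 * (2 * Real.pi))) * (r - exp (-k2 * (2 * Real.pi))) =
        r * (r + r⁻¹ - (exp (k2 * (2 * Real.pi)) + exp (-k2 * (2 * Real.pi)))) := by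
      linear_combination b2 - mul_inv_cancel₀ hr
    rw [c1, c2]
    ring
  by_cases hl : lam = 0
  · subst hl
    refine ⟨case_zero.1, fun u hu r hr => ?_⟩
    rw [case_zero.2 u hu r, ← key 0 I (by simp) (by simp) r hr]
    have a : exp (I * (2 * Real.pi)) = 1 := by rw [mul_comm]; exact exp_two_pi_mul_I
    have a' : exp (-I * (2 * Real.pi)) = 1 := by rw [neg_mul, exp_neg, a, inv_one]
    rw [a, a']
    simp
    ring
  · obtain ⟨δ, hδ⟩ := IsAlgClosed.exists_pow_nat_eq (1 + 4 * lam) two_pos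
    obtain ⟨k1, hk1⟩ := IsAlgClosed.exists_pow_nat_eq ((-1 + δ) / 2) two_pos
    obtain ⟨k2, hk2⟩ := IsAlgClosed.exists_pow_nat_eq ((-1 - δ) / 2) two_pos
    have h1 : k1 ^ 2 + k2 ^ 2 = -1 := by rw [hk1, hk2]; ring
    have h2 : k1 ^ 2 * k2 ^ 2 = -lam := by rw [hk1, hk2]; linear_combination (-1 / 4) * hδ
    refine ⟨(case_ne hl h1 h2).1, fun u hu r hr => ?_⟩
    rw [(case_ne hl h1 h2).2 u hu r, key k1 k2 h1 h2 r hr]

theorem iter2 {u u1 u2 : ℝ → ℂ} (h0 : ∀ x, HasDerivAt u (u1 x) x) (h1 : ∀ x, HasDerivAt u1 (u2 x) x) :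
    iteratedDeriv 1 u = u1 ∧ iteratedDeriv 2 u = u2 := by
  have e0 : deriv u = u1 := funext fun x => (h0 x).deriv
  have e1 : deriv u1 = u2 := funext fun x => (h1 x).deriv
  have i1 : iteratedDeriv 1 u = u1 := by rw [iteratedDeriv_one, e0]
  exact ⟨i1, by rw [iteratedDeriv_succ, i1, e1]⟩

open Polynomial in
theorem compare {S : ℂ[X]} (hS : S.Monic) (hS2 : S.natDegree = 2) {q q1 q2 : ℝ → ℂ}
    (hq0 : ∀ x, HasDerivAt q (q1 x) x) (hq1 : ∀ x, HasDerivAt q1 (q2 x) x)
    {u u1 : ℝ → ℂ} {c : ℂ} (h0 : ∀ x, HasDerivAt u (u1 x) x) (h1 : ∀ x, HasDerivAt u1 c x)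
    (h : applyL 4 p u = polyHill S q u) (x : ℝ) :
    p 0 x * u x + p 1 x * u1 x + p 2 x * c =
      (S.coeff 0 + S.coeff 1 * q x + q2 x + q x ^ 2) * u x + 2 * q1 x * u1 x +
        (S.coeff 1 + 2 * q x) * c := by
  obtain ⟨i1, i2⟩ := iter2 (u2 := fun _ => c) h0 h1
  have i3 : iteratedDeriv 3 u = fun _ => 0 := by
    rw [iteratedDeriv_succ, i2]; funext x; simp
  have i4 : iteratedDeriv 4 u = fun _ => 0 := by
    rw [iteratedDeriv_succ, i3]; funext x; simp
  have hH : hill q u = fun x => c + q x * u x := by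
    funext x; simp only [hill, i2]
  have j := (iter2 (u := fun x => c + q x * u x) (u1 := fun x => q1 x * u x + q x * u1 x)
    (u2 := fun x => q2 x * u x + q1 x * u1 x + (q1 x * u1 x + q x * c))
    (fun x => ((hq0 x).fun_mul (h0 x)).const_add c)
    (fun x => ((hq1 x).fun_mul (h0 x)).fun_add ((hq0 x).fun_mul (h1 x)))).2
  have hc : S.coeff 2 = 1 := by rw [← hS2]; exact hS
  have := congrFun h x
  simp only [applyL, polyHill, hS2, Finset.sum_range_succ, Finset.sum_range_zero, zero_add,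
    iteratedDeriv_zero, show 4 - 1 = 3 from rfl, i1, i2, i4, Function.iterate_succ,
    Function.iterate_zero, Function.comp, id, hH, hc] at this
  simp only [hill, j] at this
  linear_combination this

open Polynomial in
theorem not_hill {S : ℂ[X]} (hS : S.Monic) (hS2 : S.natDegree = 2) {q : ℝ → ℂ}
    (hq : ContDiff ℝ 2 q) :
    ¬ ∀ u : ℝ → ℂ, ContDiff ℝ ∞ u → applyL 4 p u = polyHill S q u := by
  intro h
  have hq0 : ∀ x, HasDerivAt q (deriv q x) x := fun x =>
    (hq.differentiable (by norm_num) x).hasDerivAt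
  have hq1 : ∀ x, HasDerivAt (deriv q) (deriv (deriv q) x) x := fun x =>
    ((hq.deriv' (n := 1)).differentiable (by norm_num) x).hasDerivAt
  have hid : ∀ x : ℝ, HasDerivAt (fun x : ℝ => (x : ℂ)) 1 x := fun x => by
    simpa using (hasDerivAt_id x).ofReal_comp
  have hcd : ContDiff ℝ ∞ (fun x : ℝ => (x : ℂ)) := Complex.ofRealCLM.contDiff
  have a0 := compare hS hS2 hq0 hq1 (u := fun _ => 1) (u1 := fun _ => 0) (c := 0)
    (fun x => hasDerivAt_const x _) (fun x => hasDerivAt_const x _) (h _ contDiff_const)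
  have a1 := compare hS hS2 hq0 hq1 (u := fun x => x) (u1 := fun _ => 1) (c := 0)
    hid (fun x => hasDerivAt_const x _) (h _ hcd)
  have a2 := compare hS hS2 hq0 hq1 (u := fun x => x ^ 2) (u1 := fun x => 2 * x) (c := 2)
    (fun x => ((hid x).fun_pow 2).congr_deriv (by simp))
    (fun x => ((hid x).const_mul 2).congr_deriv (by simp)) (h _ (hcd.pow 2))
  have b1 : ∀ x, p 1 x = 2 * deriv q x := fun x => by
    linear_combination a1 x - x * a0 x
  have b2 : p 2 = fun x => S.coeff 1 + 2 * q x := funext fun x => by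
    linear_combination (a2 x) / 2 - x ^ 2 / 2 * a0 x - x * b1 x
  have d1 : HasDerivAt (p 2) (p 1 (Real.pi / 2)) (Real.pi / 2) := by
    rw [b2, b1]
    exact ((hq0 _).const_mul 2).const_add _
  have d2 := (((dg (Real.pi / 2)).const_mul 8).const_add (-3)).fun_sub
    (((dv (Real.pi / 2)).fun_pow 2).const_mul 4)
  rw [show (fun x => -3 + 8 * g x - 4 * v x ^ 2) = p 2 from funext fun x => (p2 x).symm] at d2
  have := d1.unique d2
  have e1 : g (Real.pi / 2) = 1 / 2 := by simp [g, gR]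
  have e2 : v (Real.pi / 2) = -1 / 2 := by simp [v, vR]
  rw [p1, e1, e2] at this
  norm_num at this

end Pool.Agent.Work.MP_214325_an
end
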