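import Pool.Agent.Work.MP_214325_an.Example

/-! A formally self-adjoint witness: `L = B B* - m`, where `B* B = d⁴ + (7/32) d² + m`. -/

open Complex
open scoped ContDiff

namespace Pool.Agent.Work.MP_214325_an.Sa

/-- a block triangular first order system -/
structure Blk (α c : Fin 4 → ℝ → ℂ) (z : Fin 4 → ℝ → ℂ) : Prop where
  d0 : ∀ x, HasDerivAt (z 0) (α 0 x * z 0 x + (c 0 x * z 2 x + c 1 x * z 3 x)) x
  d1 : ∀ x, HasDerivAt (z 1) (α 1 x * z 1 x + (c 2 x * z 2 x + c 3 x * z 3 x)) x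
  d2 : ∀ x, HasDerivAt (z 2) (α 2 x * z 2 x) x
  d3 : ∀ x, HasDerivAt (z 3) (α 3 x * z 3 x) x

theorem Blk.exists {α c E : Fin 4 → ℝ → ℂ} (hE : ∀ i, IsExp (α i) (E i))
    (hc : ∀ i, Continuous (c i)) (a : Fin 4 → ℂ) :
    ∃ z : Fin 4 → ℝ → ℂ, Blk α c z ∧ ∀ i, z i 0 = a i := by
  have cont : ∀ {z f : ℝ → ℂ}, (∀ x, HasDerivAt z (f x) x) → Continuous z := fun h =>
    continuous_iff_continuousAt.mpr fun x => (h x).continuousAt
  obtain ⟨z3, h30, h3⟩ := (hE 3).exists (f := fun _ => 0) continuous_const (a 3)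
  obtain ⟨z2, h20, h2⟩ := (hE 2).exists (f := fun _ => 0) continuous_const (a 2)
  obtain ⟨z1, h10, h1⟩ := (hE 1).exists (f := fun x => c 2 x * z2 x + c 3 x * z3 x)
    (((hc 2).mul (cont h2)).add ((hc 3).mul (cont h3))) (a 1)
  obtain ⟨z0, h00, h0⟩ := (hE 0).exists (f := fun x => c 0 x * z2 x + c 1 x * z3 x)
    (((hc 0).mul (cont h2)).add ((hc 1).mul (cont h3))) (a 0)
  refine ⟨![z0, z1, z2, z3], ⟨h0, h1, fun x => by simpa using h2 x,
    fun x => by simpa using h3 x⟩, fun i => ?_⟩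
  fin_cases i <;> simp [*]

theorem Blk.comb {α c : Fin 4 → ℝ → ℂ} {z : Fin 4 → Fin 4 → ℝ → ℂ} (hz : ∀ j, Blk α c (z j))
    (a : Fin 4 → ℂ) : Blk α c (fun i x => ∑ j, z j i x * a j) := by
  refine ⟨fun x => ?_, fun x => ?_, fun x => ?_, fun x => ?_⟩
  · refine (HasDerivAt.fun_sum fun j _ => ((hz j).d0 x).mul_const (a j)).congr_deriv ?_
    simp only [Fin.sum_univ_four]; ring
  · refine (HasDerivAt.fun_sum fun j _ => ((hz j).d1 x).mul_const (a j)).congr_deriv ?_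
    simp only [Fin.sum_univ_four]; ring
  · refine (HasDerivAt.fun_sum fun j _ => ((hz j).d2 x).mul_const (a j)).congr_deriv ?_
    simp only [Fin.sum_univ_four]; ring
  · refine (HasDerivAt.fun_sum fun j _ => ((hz j).d3 x).mul_const (a j)).congr_deriv ?_
    simp only [Fin.sum_univ_four]; ring

theorem Blk.tri {α c E z : Fin 4 → ℝ → ℂ} (hE : ∀ i, IsExp (α i) (E i)) (hz : Blk α c z)
    (i : Fin 4) (h0 : ∀ i', i < i' → z i' 0 = 0) (x : ℝ) : z i x = z i 0 * E i x := by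
  have a3 : ∀ x, z 3 x = z 3 0 * E 3 x := (hE 3).uniq hz.d3
  have a2 : ∀ x, z 2 x = z 2 0 * E 2 x := (hE 2).uniq hz.d2
  have a1 : z 3 0 = 0 → z 2 0 = 0 → ∀ x, z 1 x = z 1 0 * E 1 x := fun h h' =>
    (hE 1).uniq fun x => by simpa [a2 x, a3 x, h, h'] using hz.d1 x
  have a0 : z 3 0 = 0 → z 2 0 = 0 → ∀ x, z 0 x = z 0 0 * E 0 x := fun h h' =>
    (hE 0).uniq fun x => by simpa [a2 x, a3 x, h, h'] using hz.d0 x
  fin_cases i
  · exact a0 (h0 3 (by decide)) (h0 2 (by decide)) x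
  · exact a1 (h0 3 (by decide)) (h0 2 (by decide)) x
  · exact a2 x
  · exact a3 x

open Matrix in
theorem det_of_blk {α c E : Fin 4 → ℝ → ℂ} (hE : ∀ i, IsExp (α i) (E i))
    {z : Fin 4 → Fin 4 → ℝ → ℂ} (hz : ∀ j, Blk α c (z j)) {Q T : Matrix (Fin 4) (Fin 4) ℂ}
    (hQ : Q.det ≠ 0) (b : ℝ) (h0 : ∀ i j, z j i 0 = Q i j) (hb : ∀ i j, -z j i b = (Q * T) i j)
    (r : ℂ) : (r • (1 : Matrix (Fin 4) (Fin 4) ℂ) - T).det = ∏ i, (r + E i b) := by
  have hu : IsUnit Q.det := isUnit_iff_ne_zero.mpr hQ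
  set N := Q * T * Q⁻¹ with hN
  have hcol : ∀ i j, i = j ∨ j < i → N i j = -((1 : Matrix (Fin 4) (Fin 4) ℂ) i j * E i b) := by
    intro i j hij
    have hc := Blk.comb hz (fun l => Q⁻¹ l j)
    have e0 : ∀ i', ∑ l, z l i' 0 * Q⁻¹ l j = (1 : Matrix (Fin 4) (Fin 4) ℂ) i' j := by
      intro i'
      rw [← Matrix.mul_nonsing_inv Q hu, Matrix.mul_apply]
      simp only [h0]
    have := hc.tri hE i (fun i' hi' => by
      rw [e0, Matrix.one_apply_ne]
      rcases hij with rfl | h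
      · exact hi'.ne'
      · exact (h.trans hi').ne') b
    rw [e0] at this
    rw [← this, hN, Matrix.mul_apply]
    simp only [← hb, neg_mul, Finset.sum_neg_distrib]
  have e : r • (1 : Matrix (Fin 4) (Fin 4) ℂ) - N = Q * (r • 1 - T) * Q⁻¹ := by
    rw [Matrix.mul_sub, Matrix.sub_mul, Matrix.mul_smul, Matrix.mul_one, Matrix.smul_mul,
      Matrix.mul_nonsing_inv Q hu]
  have e2 : (r • (1 : Matrix (Fin 4) (Fin 4) ℂ) - N).det = (r • 1 - T).det := by
    rw [e, Matrix.det_mul, Matrix.det_mul, mul_right_comm, ← Matrix.det_mul,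
      Matrix.mul_nonsing_inv Q hu, Matrix.det_one, one_mul]
  rw [← e2, Matrix.det_of_isUpperTriangular]
  · refine Finset.prod_congr rfl fun i _ => ?_
    simp [hcol i i (Or.inl rfl)]
  · intro i j hij
    have hij' : j < i := hij
    simp [hcol i j (Or.inr hij'), Matrix.one_apply_ne hij'.ne']

theorem main_blk {p : ℕ → ℝ → ℂ} (hp : ∀ k, Continuous (p k)) {lam : ℂ} {b : ℝ}
    {α c E : Fin 4 → ℝ → ℂ} (hE : ∀ i, IsExp (α i) (E i)) (hc : ∀ i, Continuous (c i))
    {Q : Matrix (Fin 4) (Fin 4) ℂ} (hQ : Q.det ≠ 0)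
    (h1 : ∀ w, Sol p lam w → ∃ z, Blk α c z ∧ (∀ i, z i 0 = ∑ j, Q i j * w j 0) ∧
      (∀ i, -z i b = ∑ j, Q i j * w j b))
    (h2 : ∀ z, Blk α c z → ∃ w, Sol p lam w ∧ ∀ i, z i 0 = ∑ j, Q i j * w j 0) :
    (∃ u, IsFundSystem 4 p lam u) ∧ ∀ u, IsFundSystem 4 p lam u → ∀ r : ℂ,
      (r • (1 : Matrix (Fin 4) (Fin 4) ℂ) - floquet b u).det = ∏ i, (r + E i b) := by
  constructor
  · have : ∀ j : Fin 4, ∃ w, Sol p lam w ∧ ∀ k, w k 0 = if j = k then 1 else 0 := by
      intro j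
      obtain ⟨z, hz, hz0⟩ := Blk.exists hE hc (fun i => Q i j)
      obtain ⟨w, hw, hw0⟩ := h2 z hz
      refine ⟨w, hw, fun k => ?_⟩
      have hinj : Function.Injective Q.mulVec :=
        Matrix.mulVec_injective_iff_isUnit.mpr ((Matrix.isUnit_iff_isUnit_det Q).mpr
          (isUnit_iff_ne_zero.mpr hQ))
      have : Q.mulVec (fun k => w k 0) = Q.mulVec (fun k => if j = k then 1 else 0) := by
        funext i
        simp only [Matrix.mulVec, dotProduct, ← hw0, hz0]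
        simp
      exact congrFun (hinj this) k
    choose w hw hw0 using this
    refine ⟨fun j => w j 0, fun j => ?_⟩
    obtain ⟨a1, a2, a3⟩ := (hw j).jets hp
    exact ⟨a1, a2, fun k => by rw [a3, hw0]⟩
  · intro u hu r
    have hs := fun j => h1 _ (sol_of_contDiff (hu j).1 (hu j).2.1)
    choose z hz hz0 hzb using hs
    refine det_of_blk hE hz hQ b (fun i j => ?_) (fun i j => ?_) r
    · rw [hz0]
      simp [(hu j).2.2]
    · rw [hzb, Matrix.mul_apply]
      rfl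

/-- `1 / (5 + 3 cos x)` -/
noncomputable def gR (x : ℝ) : ℝ := 1 / (5 + 3 * Real.cos x)
/-- the logarithmic derivative of `gR` -/
noncomputable def vR (x : ℝ) : ℝ := 3 * Real.sin x / (5 + 3 * Real.cos x)

theorem den_pos (x : ℝ) : 0 < 5 + 3 * Real.cos x := by linarith [Real.neg_one_le_cos x]

/-- the coefficients -/
noncomputable def pR : ℕ → ℝ → ℝ
  | 0 => fun x => 5 * gR x - 171 * gR x ^ 2 + 1280 * gR x ^ 3 - 2048 * gR x ^ 4
  | 1 => fun x => (128 * gR x ^ 2 - 20 * gR x) * vR x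
  | 2 => fun x => 64 * gR x ^ 2 - 20 * gR x + 7 / 32
  | _ + 3 => fun _ => 0

theorem contDiff_pR (k : ℕ) : ContDiff ℝ ω (pR k) := by
  have h1 : ContDiff ℝ ω gR := by
    unfold gR
    exact contDiff_const.div (by fun_prop) fun x => (den_pos x).ne'
  have h2 : ContDiff ℝ ω vR := by
    unfold vR
    exact ContDiff.div (by fun_prop) (by fun_prop) fun x => (den_pos x).ne'
  match k with
  | 0 => unfold pR; fun_prop
  | 1 => unfold pR; fun_prop
  | 2 => unfold pR; fun_prop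
  | _ + 3 => exact contDiff_const

theorem periodic_pR (k : ℕ) : Function.Periodic (pR k) (2 * Real.pi) := by
  intro x
  have h1 : gR (x + 2 * Real.pi) = gR x := by simp [gR]
  have h2 : vR (x + 2 * Real.pi) = vR x := by simp [vR]
  match k with
  | 0 => simp only [pR, h1]
  | 1 => simp only [pR, h1, h2]
  | 2 => simp only [pR, h1]
  | _ + 3 => rfl

theorem dgR (x : ℝ) : HasDerivAt gR (vR x * gR x) x := by
  refine ((hasDerivAt_const x (1:ℝ)).fun_div (((Real.hasDerivAt_cos x).const_mul 3).const_add 5)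
    (den_pos x).ne').congr_deriv ?_
  have := (den_pos x).ne'
  simp only [gR, vR]
  field_simp
  ring

theorem dvR (x : ℝ) : HasDerivAt vR (5 * gR x - 16 * gR x ^ 2) x := by
  refine (((Real.hasDerivAt_sin x).const_mul 3).fun_div
    (((Real.hasDerivAt_cos x).const_mul 3).const_add 5) (den_pos x).ne').congr_deriv ?_
  have := (den_pos x).ne'
  simp only [gR]
  field_simp
  linear_combination 9 * Real.sin_sq_add_cos_sq x

theorem vsqR (x : ℝ) : vR x ^ 2 = -1 + 10 * gR x - 16 * gR x ^ 2 := by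
  have := (den_pos x).ne'
  simp only [gR, vR]
  field_simp
  linear_combination 9 * Real.sin_sq_add_cos_sq x

theorem sym_pR : pR 1 = deriv (pR 2) := by
  funext x
  have h := ((((dgR x).fun_pow 2).const_mul 64).fun_sub ((dgR x).const_mul 20)).add_const (7 / 32)
  rw [show pR 2 = fun x => 64 * gR x ^ 2 - 20 * gR x + 7 / 32 from rfl, h.deriv]
  simp only [pR]
  push_cast
  ring

/-- `2 cos (x / 2) + sin (x / 2)` -/
noncomputable def aR (x : ℝ) : ℝ := 2 * Real.cos (x / 2) + Real.sin (x / 2)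
/-- `2 cos (x / 2) - sin (x / 2)` -/
noncomputable def bR (x : ℝ) : ℝ := 2 * Real.cos (x / 2) - Real.sin (x / 2)

theorem relR (x : ℝ) : gR x * (aR x ^ 2 + bR x ^ 2) = 1 ∧
    vR x * bR x + 4 * gR x * aR x = 5 / 4 * aR x - 3 / 4 * bR x ∧
    -(vR x * aR x) + 4 * gR x * bR x = 5 / 4 * bR x - 3 / 4 * aR x := by
  have h := (den_pos x).ne'
  have h1 := Real.sin_sq_add_cos_sq (x / 2)
  have h2 : Real.cos x = 2 * Real.cos (x / 2) ^ 2 - 1 := by
    rw [← Real.cos_two_mul]; congr 1; ring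
  have h3 : Real.sin x = 2 * Real.sin (x / 2) * Real.cos (x / 2) := by
    rw [← Real.sin_two_mul]; congr 1; ring
  simp only [gR, vR, aR, bR]
  refine ⟨?_, ?_, ?_⟩
  · field_simp
    rw [h2]
    linear_combination 2 * h1
  · field_simp
    rw [h2, h3]
    linear_combination (-24 * Real.cos (x / 2)) * h1
  · field_simp
    rw [h2, h3]
    linear_combination (-24 * Real.cos (x / 2)) * h1

/-- complex versions -/
noncomputable def g (x : ℝ) : ℂ := gR x
/-- complex versions -/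
noncomputable def v (x : ℝ) : ℂ := vR x
/-- complex versions -/
noncomputable def p (k : ℕ) (x : ℝ) : ℂ := pR k x
/-- complex versions -/
noncomputable def c1 (x : ℝ) : ℂ := aR x
/-- complex versions -/
noncomputable def c2 (x : ℝ) : ℂ := bR x

theorem continuous_p (k : ℕ) : Continuous (p k) :=
  continuous_ofReal.comp (contDiff_pR k).continuous

theorem p0 (x : ℝ) : p 0 x = 5 * g x - 171 * g x ^ 2 + 1280 * g x ^ 3 - 2048 * g x ^ 4 := by
  simp [p, pR, g]
theorem p1 (x : ℝ) : p 1 x = (128 * g x ^ 2 - 20 * g x) * v x := by simp [p, pR, g, v]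
theorem p2 (x : ℝ) : p 2 x = 64 * g x ^ 2 - 20 * g x + 7 / 32 := by simp [p, pR, g]

theorem dg (x : ℝ) : HasDerivAt g (v x * g x) x :=
  (dgR x).ofReal_comp.congr_deriv (by simp [g, v])
theorem dv (x : ℝ) : HasDerivAt v (5 * g x - 16 * g x ^ 2) x :=
  (dvR x).ofReal_comp.congr_deriv (by simp [g])
theorem vsq (x : ℝ) : v x ^ 2 = -1 + 10 * g x - 16 * g x ^ 2 := by
  simp only [g, v]; exact_mod_cast vsqR x
theorem r1 (x : ℝ) : g x * (c1 x ^ 2 + c2 x ^ 2) = 1 := by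
  simp only [g, c1, c2]; exact_mod_cast (relR x).1
theorem r2 (x : ℝ) : v x * c2 x + 4 * g x * c1 x = 5 / 4 * c1 x - 3 / 4 * c2 x := by
  have := congrArg (fun t : ℝ => (t : ℂ)) (relR x).2.1
  simpa [g, v, c1, c2] using this
theorem r3 (x : ℝ) : -(v x * c1 x) + 4 * g x * c2 x = 5 / 4 * c2 x - 3 / 4 * c1 x := by
  have := congrArg (fun t : ℝ => (t : ℂ)) (relR x).2.2
  simpa [g, v, c1, c2] using this

theorem dc1 (x : ℝ) : HasDerivAt c1 (5 / 8 * c2 x - 3 / 8 * c1 x) x := by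
  have h : HasDerivAt aR (5 / 8 * bR x - 3 / 8 * aR x) x :=
    (((((hasDerivAt_id x).div_const 2).cos).const_mul 2).fun_add
      ((hasDerivAt_id x).div_const 2).sin).congr_deriv (by simp only [aR, bR, id]; ring)
  exact h.ofReal_comp.congr_deriv (by simp [c1, c2])

theorem dc2 (x : ℝ) : HasDerivAt c2 (3 / 8 * c2 x - 5 / 8 * c1 x) x := by
  have h : HasDerivAt bR (3 / 8 * bR x - 5 / 8 * aR x) x :=
    (((((hasDerivAt_id x).div_const 2).cos).const_mul 2).fun_sub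
      ((hasDerivAt_id x).div_const 2).sin).congr_deriv (by simp only [aR, bR, id]; ring)
  exact h.ofReal_comp.congr_deriv (by simp [c1, c2])

theorem v0 : v 0 = 0 := by simp [v, vR]
theorem g0 : g 0 = 1 / 8 := by simp [g, gR]; norm_num
theorem a0 : c1 0 = 2 := by simp [c1, aR]
theorem b0 : c2 0 = 2 := by simp [c2, bR]
theorem vb : v (2 * Real.pi) = 0 := by simp [v, vR]
theorem gb : g (2 * Real.pi) = 1 / 8 := by simp [g, gR]; norm_num
theorem ab : c1 (2 * Real.pi) = -2 := by simp [c1, aR]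
theorem bb : c2 (2 * Real.pi) = -2 := by simp [c2, bR]

end Pool.Agent.Work.MP_214325_an.Sa
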