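import Pool.Agent.Work.MP_214325_an.Sa

/-! The multiplier curve of the formally self-adjoint witness. -/

open Complex
open scoped ContDiff

namespace Pool.Agent.Work.MP_214325_an.Sa

/-- the coefficient of order zero of `B` -/
noncomputable def s (x : ℝ) : ℂ := 5 / 2 * g x - 25 / 64
/-- the coefficient of order zero of `B*` -/
noncomputable def t (x : ℝ) : ℂ := 16 * g x ^ 2 - 5 / 2 * g x - 25 / 64

theorem ds (x : ℝ) : HasDerivAt s (5 / 2 * (v x * g x)) x := ((dg x).const_mul _).sub_const _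

theorem dt (x : ℝ) : HasDerivAt t ((32 * g x ^ 2 - 5 / 2 * g x) * v x) x :=
  (((((dg x).fun_pow 2).const_mul 16).fun_sub ((dg x).const_mul _)).sub_const _).congr_deriv
    (by push_cast; ring)

theorem dv1 (x : ℝ) : HasDerivAt (fun x => 5 * g x - 16 * g x ^ 2)
    ((5 * g x - 32 * g x ^ 2) * v x) x :=
  (((dg x).const_mul 5).fun_sub (((dg x).fun_pow 2).const_mul 16)).congr_deriv
    (by push_cast; ring)

theorem dt1 (x : ℝ) : HasDerivAt (fun x => (32 * g x ^ 2 - 5 / 2 * g x) * v x)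
    ((64 * g x ^ 2 - 5 / 2 * g x) * v x ^ 2 +
      (32 * g x ^ 2 - 5 / 2 * g x) * (5 * g x - 16 * g x ^ 2)) x :=
  (((((dg x).fun_pow 2).const_mul 32).fun_sub ((dg x).const_mul _)).fun_mul (dv x)).congr_deriv
    (by push_cast; ring)

/-- `B* u = y` and `B y = μ u` as a first order system in `u, u', y, y'` -/
structure Sys (μ : ℂ) (m : Fin 4 → ℝ → ℂ) : Prop where
  d0 : ∀ x, HasDerivAt (m 0) (m 1 x) x
  d1 : ∀ x, HasDerivAt (m 1) (m 2 x + v x * m 1 x - t x * m 0 x) x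
  d2 : ∀ x, HasDerivAt (m 2) (m 3 x) x
  d3 : ∀ x, HasDerivAt (m 3) (μ * m 0 x - v x * m 3 x - s x * m 2 x) x

/-- jets to intermediate variables -/
noncomputable def toSys (w : Fin 4 → ℝ → ℂ) : Fin 4 → ℝ → ℂ :=
  ![w 0, w 1, fun x => w 2 x - v x * w 1 x + t x * w 0 x,
    fun x => w 3 x - v x * w 2 x + (t x - (5 * g x - 16 * g x ^ 2)) * w 1 x +
      (32 * g x ^ 2 - 5 / 2 * g x) * v x * w 0 x]

theorem sys_of {lam : ℂ} {w : Fin 4 → ℝ → ℂ} (h : Sol p lam w) :
    Sys (lam + 625 / 4096) (toSys w) := by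
  refine ⟨h.d0, fun x => (h.d1 x).congr_deriv ?_, fun x => ?_, fun x => ?_⟩
  · simp [toSys]; ring
  · refine (((h.d2 x).fun_sub ((dv x).fun_mul (h.d1 x))).fun_add
      ((dt x).fun_mul (h.d0 x))).congr_deriv ?_
    simp [toSys]; ring
  · refine ((((h.d3 x).fun_sub ((dv x).fun_mul (h.d2 x))).fun_add
      (((dt x).fun_sub (dv1 x)).fun_mul (h.d1 x))).fun_add
      ((dt1 x).fun_mul (h.d0 x))).congr_deriv ?_
    simp [toSys, p0, p1, p2, s, t]
    linear_combination (-w 2 x + (96 * g x ^ 2 - 5 * g x) * w 0 x) * vsq x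

theorem Sys.exists_sol {lam : ℂ} {m : Fin 4 → ℝ → ℂ} (h : Sys (lam + 625 / 4096) m) :
    ∃ w, Sol p lam w ∧ toSys w = m := by
  have h2 : ∀ x, HasDerivAt (fun x => m 2 x + v x * m 1 x - t x * m 0 x)
      (m 3 x + v x * (m 2 x + v x * m 1 x - t x * m 0 x)
        - (t x - (5 * g x - 16 * g x ^ 2)) * m 1 x
        - (32 * g x ^ 2 - 5 / 2 * g x) * v x * m 0 x) x :=
    fun x => (((h.d2 x).fun_add ((dv x).fun_mul (h.d1 x))).fun_sub
      ((dt x).fun_mul (h.d0 x))).congr_deriv (by ring)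
  refine ⟨![m 0, m 1, fun x => m 2 x + v x * m 1 x - t x * m 0 x,
    fun x => m 3 x + v x * (m 2 x + v x * m 1 x - t x * m 0 x)
        - (t x - (5 * g x - 16 * g x ^ 2)) * m 1 x
        - (32 * g x ^ 2 - 5 / 2 * g x) * v x * m 0 x], ⟨h.d0, h.d1, h2, fun x => ?_⟩, ?_⟩
  · refine ((((h.d3 x).fun_add ((dv x).fun_mul (h2 x))).fun_sub
      (((dt x).fun_sub (dv1 x)).fun_mul (h.d1 x))).fun_sub
      ((dt1 x).fun_mul (h.d0 x))).congr_deriv ?_
    simp [p0, p1, p2, s, t]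
    linear_combination ((m 2 x + v x * m 1 x - (16 * g x ^ 2 - 5 / 2 * g x - 25 / 64) * m 0 x)
      - (96 * g x ^ 2 - 5 * g x) * m 0 x) * vsq x
  · funext i x
    fin_cases i <;> simp [toSys] <;> ring

theorem case_zero : (∃ u, IsFundSystem 4 p (-(625 / 4096)) u) ∧
    ∀ u, IsFundSystem 4 p (-(625 / 4096)) u → ∀ r : ℂ,
    (r • (1 : Matrix (Fin 4) (Fin 4) ℂ) - floquet (2 * Real.pi) u).det =
      ((r + exp (3 / 8 * (2 * Real.pi))) * (r + exp (-(3 / 8) * (2 * Real.pi)))) ^ 2 := by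
  have hE : ∀ i : Fin 4, IsExp (fun _ => ![(3 / 8 : ℂ), -(3 / 8), 3 / 8, -(3 / 8)] i)
      (fun x : ℝ => exp (![(3 / 8 : ℂ), -(3 / 8), 3 / 8, -(3 / 8)] i * x)) := fun i => isExp_const _
  have k1 : Continuous c1 := continuous_iff_continuousAt.mpr fun x => (dc1 x).continuousAt
  have k2 : Continuous c2 := continuous_iff_continuousAt.mpr fun x => (dc2 x).continuousAt
  have := main_blk continuous_p (lam := -(625 / 4096)) (b := 2 * Real.pi) hE
    (c := ![fun x => 8 / 5 * (c2 x * c1 x), fun x => -(8 / 5 * (c2 x * c2 x)),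
      fun x => 8 / 5 * (c1 x * c1 x), fun x => -(8 / 5 * (c1 x * c2 x))])
    (fun i => by fin_cases i <;> simp <;> fun_prop)
    (Q := !![5 / 4, 2, 0, 0; -(5 / 4), 2, 0, 0; -(145 / 2048), -(53 / 256), 5 / 32, 1 / 4;
      145 / 2048, -(53 / 256), -(5 / 32), 1 / 4])
    (by simp [Matrix.det_succ_row_zero, Fin.sum_univ_succ, Fin.succAbove]; norm_num)
    (fun w hw => ?_) (fun z hz => ?_)
  · refine ⟨this.1, fun u hu r => ?_⟩
    rw [this.2 u hu r]
    simp [Fin.prod_univ_four]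
    ring
  · have h := sys_of hw
    set m := toSys w with hm
    refine ⟨![fun x => c2 x * m 1 x + 5 / 8 * (c1 x * m 0 x) - v x * (c2 x * m 0 x),
      fun x => c1 x * m 1 x - 5 / 8 * (c2 x * m 0 x) - v x * (c1 x * m 0 x),
      fun x => g x * (c2 x * m 3 x + 5 / 8 * (c1 x * m 2 x)),
      fun x => g x * (c1 x * m 3 x - 5 / 8 * (c2 x * m 2 x))],
      ⟨fun x => ((((dc2 x).fun_mul (h.d1 x)).fun_add (((dc1 x).fun_mul (h.d0 x)).const_mul _)).fun_sub
          ((dv x).fun_mul ((dc2 x).fun_mul (h.d0 x)))).congr_deriv ?_,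
        fun x => ((((dc1 x).fun_mul (h.d1 x)).fun_sub (((dc2 x).fun_mul (h.d0 x)).const_mul _)).fun_sub
          ((dv x).fun_mul ((dc1 x).fun_mul (h.d0 x)))).congr_deriv ?_,
        fun x => ((dg x).fun_mul (((dc2 x).fun_mul (h.d3 x)).fun_add
          (((dc1 x).fun_mul (h.d2 x)).const_mul _))).congr_deriv ?_,
        fun x => ((dg x).fun_mul (((dc1 x).fun_mul (h.d3 x)).fun_sub
          (((dc2 x).fun_mul (h.d2 x)).const_mul _))).congr_deriv ?_⟩, fun i => ?_, fun i => ?_⟩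
    · simp [t]
      linear_combination (-(5 / 8) * m 0 x) * r3 x - c2 x * m 2 x * r1 x
    · simp [t]
      linear_combination (-(5 / 8) * m 0 x) * r2 x - c1 x * m 2 x * r1 x
    · simp [s]
      linear_combination (-(5 / 8) * g x * m 2 x) * r3 x
    · simp [s]
      linear_combination (-(5 / 8) * g x * m 2 x) * r2 x
    · fin_cases i <;> simp [hm, toSys, t, Fin.sum_univ_four, v0, g0, a0, b0] <;> ring
    · fin_cases i <;> simp [hm, toSys, t, Fin.sum_univ_four, vb, gb, ab, bb] <;> ring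
  · have m0 : ∀ x, HasDerivAt (fun x => 8 / 5 * (g x * (c1 x * z 0 x - c2 x * z 1 x)))
        (v x * (8 / 5 * (g x * (c1 x * z 0 x - c2 x * z 1 x))) +
          g x * (c2 x * z 0 x + c1 x * z 1 x)) x := fun x =>
      (((dg x).fun_mul (((dc1 x).fun_mul (hz.d0 x)).fun_sub
        ((dc2 x).fun_mul (hz.d1 x)))).const_mul _).congr_deriv (by simp; ring)
    have h : Sys (-(625 / 4096) + 625 / 4096)
        ![fun x => 8 / 5 * (g x * (c1 x * z 0 x - c2 x * z 1 x)),
          fun x => v x * (8 / 5 * (g x * (c1 x * z 0 x - c2 x * z 1 x))) +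
            g x * (c2 x * z 0 x + c1 x * z 1 x),
          fun x => 8 / 5 * (c1 x * z 2 x - c2 x * z 3 x),
          fun x => c1 x * z 3 x + c2 x * z 2 x] := by
      refine ⟨m0, fun x => (((dv x).fun_mul (m0 x)).fun_add ((dg x).fun_mul
          (((dc2 x).fun_mul (hz.d0 x)).fun_add ((dc1 x).fun_mul (hz.d1 x))))).congr_deriv ?_,
        fun x => ((((dc1 x).fun_mul (hz.d2 x)).fun_sub
          ((dc2 x).fun_mul (hz.d3 x))).const_mul _).congr_deriv ?_,
        fun x => (((dc1 x).fun_mul (hz.d3 x)).fun_add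
          ((dc2 x).fun_mul (hz.d2 x))).congr_deriv ?_⟩
      · simp [t]
        linear_combination g x * z 0 x * r2 x - g x * z 1 x * r3 x +
          8 / 5 * (c1 x * z 2 x - c2 x * z 3 x) * r1 x
      · simp; ring
      · simp [s]
        linear_combination z 2 x * r2 x - z 3 x * r3 x
    obtain ⟨w, hw, hwm⟩ := h.exists_sol
    have e0 := congrFun (congrFun hwm 0) 0
    have e1 := congrFun (congrFun hwm 1) 0
    have e2 := congrFun (congrFun hwm 2) 0
    have e3 := congrFun (congrFun hwm 3) 0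
    simp [toSys, t, v0, g0, a0, b0] at e0 e1 e2 e3
    refine ⟨w, hw, fun i => ?_⟩
    fin_cases i <;> simp [Fin.sum_univ_four]
    · linear_combination (-(5 / 4)) * e0 - 2 * e1
    · linear_combination (5 / 4) * e0 - 2 * e1
    · linear_combination (-(5 / 32)) * e2 - (1 / 4) * e3
    · linear_combination (5 / 32) * e2 - (1 / 4) * e3

theorem case_ne {lam k1 k2 : ℂ} (hl : lam + 625 / 4096 ≠ 0) (h1 : k1 ^ 2 + k2 ^ 2 = -(7 / 32))
    (h2 : k1 ^ 2 * k2 ^ 2 = -lam) :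
    (∃ u, IsFundSystem 4 p lam u) ∧ ∀ u, IsFundSystem 4 p lam u → ∀ r : ℂ,
    (r • (1 : Matrix (Fin 4) (Fin 4) ℂ) - floquet (2 * Real.pi) u).det =
      (r - exp (k1 * (2 * Real.pi))) * (r - exp (-k1 * (2 * Real.pi))) *
        ((r - exp (k2 * (2 * Real.pi))) * (r - exp (-k2 * (2 * Real.pi)))) := by
  have hE : ∀ i : Fin 4, IsExp (fun _ => ![k1, -k1, k2, -k2] i)
      (fun x : ℝ => exp (![k1, -k1, k2, -k2] i * x)) := fun i => isExp_const _
  obtain ⟨μ, hμ⟩ : ∃ μ, μ = lam + 625 / 4096 := ⟨_, rfl⟩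
  rw [← hμ] at hl
  have := main_of continuous_p (lam := lam) (b := 2 * Real.pi) hE
    (Q := !![1, 0, 0, 0; -k1, 1, 0, 0; -k1 ^ 2, 0, 1, 0; k2 * k1 ^ 2, -k1 ^ 2, -k2, 1] *
      !![0, 0, 1, 0; 0, 0, 0, 1; μ, 0, 5 / 64, 0; 0, μ, 0, -(19 / 64)] *
      !![1, 0, 0, 0; 0, 1, 0, 0; -(29 / 64), 0, 1, 0; 0, -(53 / 64), 0, 1])
    (by
      rw [Matrix.det_mul, Matrix.det_mul]
      simp [Matrix.det_succ_row_zero, Fin.sum_univ_succ, Fin.succAbove, hl])
    (fun w hw => ?_) (fun z hz => ?_)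
  · refine ⟨this.1, fun u hu r => ?_⟩
    rw [this.2 u hu r]
    simp [Fin.prod_univ_four]
    ring
  · have h := sys_of hw
    rw [← hμ] at h
    set m := toSys w with hm
    have y2 : ∀ x, HasDerivAt (fun x => μ * m 0 x - v x * m 3 x - s x * m 2 x)
        (μ * m 1 x - (5 * g x - 16 * g x ^ 2 + s x) * m 3 x -
          v x * (μ * m 0 x - v x * m 3 x - s x * m 2 x) - 5 / 2 * (v x * g x) * m 2 x) x := fun x =>
      ((((h.d0 x).const_mul μ).fun_sub ((dv x).fun_mul (h.d3 x))).fun_sub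
        ((ds x).fun_mul (h.d2 x))).congr_deriv (by ring)
    have y3 : ∀ x, HasDerivAt (fun x => μ * m 1 x - (5 * g x - 16 * g x ^ 2 + s x) * m 3 x -
          v x * (μ * m 0 x - v x * m 3 x - s x * m 2 x) - 5 / 2 * (v x * g x) * m 2 x)
        (lam * m 2 x - 7 / 32 * (μ * m 0 x - v x * m 3 x - s x * m 2 x)) x := fun x =>
      (((((h.d1 x).const_mul μ).fun_sub (((dv1 x).fun_add (ds x)).fun_mul (h.d3 x))).fun_sub
        ((dv x).fun_mul (y2 x))).fun_sub
        ((((dv x).fun_mul (dg x)).const_mul _).fun_mul (h.d2 x))).congr_deriv (by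
          simp only [s, t]
          linear_combination
            (μ * m 0 x - v x * m 3 x - (5 / 2 * g x - 25 / 64) * m 2 x) * vsq x + m 2 x * hμ)
    refine ⟨![m 2, fun x => m 3 x - k1 * m 2 x,
      fun x => (μ * m 0 x - v x * m 3 x - s x * m 2 x) - k1 ^ 2 * m 2 x,
      fun x => (μ * m 1 x - (5 * g x - 16 * g x ^ 2 + s x) * m 3 x -
          v x * (μ * m 0 x - v x * m 3 x - s x * m 2 x) - 5 / 2 * (v x * g x) * m 2 x)
        - k1 ^ 2 * m 3 x - k2 * (μ * m 0 x - v x * m 3 x - s x * m 2 x) + k2 * k1 ^ 2 * m 2 x],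
      ⟨fun x => (h.d2 x).congr_deriv ?_,
        fun x => ((h.d3 x).fun_sub ((h.d2 x).const_mul k1)).congr_deriv ?_,
        fun x => ((y2 x).fun_sub ((h.d2 x).const_mul (k1 ^ 2))).congr_deriv ?_,
        fun x => ((((y3 x).fun_sub ((h.d3 x).const_mul (k1 ^ 2))).fun_sub
          ((y2 x).const_mul k2)).fun_add ((h.d2 x).const_mul (k2 * k1 ^ 2))).congr_deriv ?_⟩,
      fun i => ?_, fun i => ?_⟩
    · simp
    · simp; ring
    · simp; ring
    · simp
      linear_combination (m 2 x) * h2 - (μ * m 0 x - v x * m 3 x - s x * m 2 x) * h1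
    · fin_cases i <;> simp [hm, toSys, s, t, Fin.sum_univ_four, v0, g0] <;> ring
    · fin_cases i <;> simp [hm, toSys, s, t, Fin.sum_univ_four, vb, gb] <;> ring
  · have y0 : ∀ x, HasDerivAt (z 0) (z 1 x + k1 * z 0 x) x := fun x =>
      (hz.d0 x).congr_deriv (by simp; ring)
    have y1 : ∀ x, HasDerivAt (fun x => z 1 x + k1 * z 0 x) (z 2 x + k1 ^ 2 * z 0 x) x := fun x =>
      ((hz.d1 x).fun_add ((y0 x).const_mul k1)).congr_deriv (by simp; ring)
    have y2 : ∀ x, HasDerivAt (fun x => z 2 x + k1 ^ 2 * z 0 x)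
        (z 3 x + k1 ^ 2 * (z 1 x + k1 * z 0 x) + k2 * z 2 x) x := fun x =>
      ((hz.d2 x).fun_add ((y0 x).const_mul (k1 ^ 2))).congr_deriv (by simp; ring)
    have y3 : ∀ x, HasDerivAt (fun x => z 3 x + k1 ^ 2 * (z 1 x + k1 * z 0 x) + k2 * z 2 x)
        (lam * z 0 x - 7 / 32 * (z 2 x + k1 ^ 2 * z 0 x)) x := fun x =>
      (((hz.d3 x).fun_add ((y1 x).const_mul (k1 ^ 2))).fun_add
        ((hz.d2 x).const_mul k2)).congr_deriv (by
          simp
          linear_combination (z 2 x + k1 ^ 2 * z 0 x) * h1 - (z 0 x) * h2)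
    have m0 : ∀ x, HasDerivAt
        (fun x => ((z 2 x + k1 ^ 2 * z 0 x) + v x * (z 1 x + k1 * z 0 x) + s x * z 0 x) * μ⁻¹)
        (((z 3 x + k1 ^ 2 * (z 1 x + k1 * z 0 x) + k2 * z 2 x) +
          (5 * g x - 16 * g x ^ 2 + s x) * (z 1 x + k1 * z 0 x) + v x * (z 2 x + k1 ^ 2 * z 0 x) +
          5 / 2 * (v x * g x) * z 0 x) * μ⁻¹) x := fun x =>
      ((((y2 x).fun_add ((dv x).fun_mul (y1 x))).fun_add
        ((ds x).fun_mul (y0 x))).mul_const _).congr_deriv (by ring)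
    have hi := mul_inv_cancel₀ hl
    have h : Sys (lam + 625 / 4096)
        ![fun x => ((z 2 x + k1 ^ 2 * z 0 x) + v x * (z 1 x + k1 * z 0 x) + s x * z 0 x) * μ⁻¹,
        fun x => ((z 3 x + k1 ^ 2 * (z 1 x + k1 * z 0 x) + k2 * z 2 x) +
          (5 * g x - 16 * g x ^ 2 + s x) * (z 1 x + k1 * z 0 x) + v x * (z 2 x + k1 ^ 2 * z 0 x) +
          5 / 2 * (v x * g x) * z 0 x) * μ⁻¹, z 0, fun x => z 1 x + k1 * z 0 x] := by
      rw [← hμ]
      refine ⟨m0, fun x => ?_, y0, fun x => (y1 x).congr_deriv ?_⟩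
      · refine (((((y3 x).fun_add (((dv1 x).fun_add (ds x)).fun_mul (y1 x))).fun_add
          ((dv x).fun_mul (y2 x))).fun_add
          ((((dv x).fun_mul (dg x)).const_mul _).fun_mul (y0 x))).mul_const _).congr_deriv ?_
        simp [s, t]
        linear_combination (-(z 2 x + k1 ^ 2 * z 0 x) * μ⁻¹) * vsq x + z 0 x * hi
          - z 0 x * μ⁻¹ * hμ
      · simp
        linear_combination
          (-((z 2 x + k1 ^ 2 * z 0 x) + v x * (z 1 x + k1 * z 0 x) + s x * z 0 x)) * hi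
    obtain ⟨w, hw, hwm⟩ := h.exists_sol
    have e0 := congrFun (congrFun hwm 0) 0
    have e1 := congrFun (congrFun hwm 1) 0
    have e2 := congrFun (congrFun hwm 2) 0
    have e3 := congrFun (congrFun hwm 3) 0
    simp [toSys, s, t, v0, g0, eq_mul_inv_iff_mul_eq₀ hl] at e0 e1 e2 e3
    refine ⟨w, hw, fun i => ?_⟩
    fin_cases i <;> simp [Fin.sum_univ_four]
    · linear_combination -e2
    · linear_combination -e3 + k1 * e2
    · linear_combination -e0 + (k1 ^ 2 - 5 / 64) * e2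
    · linear_combination -e1 + k2 * e0 + (k1 ^ 2 + 19 / 64) * e3 - k2 * (k1 ^ 2 - 5 / 64) * e2

end Pool.Agent.Work.MP_214325_an.Sa
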