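import Pool.Agent.Work.MP_214325_an.SaB

/-! The multiplier curve is that of `d⁴ + (7/32) d²`, and the witness is no polynomial in a Hill
operator. -/

open Complex
open scoped ContDiff

namespace Pool.Agent.Work.MP_214325_an.Sa

open Polynomial in
theorem curve (lam : ℂ) : (∃ u, IsFundSystem 4 p lam u) ∧ ∀ u, IsFundSystem 4 p lam u →
    ∀ r : ℂ, r ≠ 0 → (r • (1 : Matrix (Fin 4) (Fin 4) ℂ) - floquet (2 * Real.pi) u).det =
      r ^ 2 * ((X ^ 2 + C (7 / 32) * X - C lam).roots.map fun w => r + r⁻¹ - disc w).prod := by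
  have key : ∀ k1 k2 : ℂ, k1 ^ 2 + k2 ^ 2 = -(7 / 32) → k1 ^ 2 * k2 ^ 2 = -lam → ∀ r : ℂ, r ≠ 0 →
      (r - exp (k1 * (2 * Real.pi))) * (r - exp (-k1 * (2 * Real.pi))) *
        ((r - exp (k2 * (2 * Real.pi))) * (r - exp (-k2 * (2 * Real.pi)))) =
      r ^ 2 * ((X ^ 2 + C (7 / 32) * X - C lam).roots.map fun w => r + r⁻¹ - disc w).prod := by
    intro k1 k2 h1 h2 r hr
    have e : (X ^ 2 + C (7 / 32) * X - C lam : ℂ[X]) = (X - C (k1 ^ 2)) * (X - C (k2 ^ 2)) := by
      have a1 := congrArg (C : ℂ → ℂ[X]) h1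
      have a2 := congrArg (C : ℂ → ℂ[X]) h2
      simp only [map_add, map_mul, map_neg] at a1 a2
      linear_combination X * a1 - a2
    rw [e, roots_mul (mul_ne_zero (X_sub_C_ne_zero _) (X_sub_C_ne_zero _)), roots_X_sub_C,
      roots_X_sub_C]
    simp only [Multiset.singleton_add, Multiset.map_cons, Multiset.map_singleton,
      Multiset.prod_cons, Multiset.prod_singleton, disc_sq]
    have b1 : exp (k1 * (2 * Real.pi)) * exp (-k1 * (2 * Real.pi)) = 1 := by
      rw [← exp_add]; simp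
    have b2 : exp (k2 * (2 * Real.pi)) * exp (-k2 * (2 * Real.pi)) = 1 := by
      rw [← exp_add]; simp
    have c1 : (r - exp (k1 * (2 * Real.pi))) * (r - exp (-k1 * (2 * Real.pi))) =
        r * (r + r⁻¹ - (exp (k1 * (2 * Real.pi)) + exp (-k1 * (2 * Real.pi)))) := by
      linear_combination b1 - mul_inv_cancel₀ hr
    have c2 : (r - exp (k2 * (2 * Real.pi))) * (r - exp (-k2 * (2 * Real.pi))) =
        r * (r + r⁻¹ - (exp (k2 * (2 * Real.pi)) + exp (-k2 * (2 * Real.pi)))) := by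
      linear_combination b2 - mul_inv_cancel₀ hr
    rw [c1, c2]
    ring
  by_cases hl : lam + 625 / 4096 = 0
  · obtain rfl : lam = -(625 / 4096) := by linear_combination hl
    refine ⟨case_zero.1, fun u hu r hr => ?_⟩
    rw [case_zero.2 u hu r, ← key (3 / 8 + I / 2) (3 / 8 - I / 2)
      (by linear_combination (1 / 2) * I_sq)
      (by linear_combination (I ^ 2 / 16 - 17 / 128) * I_sq) r hr]
    have a : ∀ k : ℂ, exp ((k + I / 2) * (2 * Real.pi)) = -exp (k * (2 * Real.pi)) := fun k => by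
      rw [show (k + I / 2) * (2 * Real.pi) = k * (2 * Real.pi) + Real.pi * I by ring, exp_add,
        exp_pi_mul_I]
      ring
    have a' : ∀ k : ℂ, exp ((k - I / 2) * (2 * Real.pi)) = -exp (k * (2 * Real.pi)) := fun k => by
      rw [show (k - I / 2) * (2 * Real.pi) = k * (2 * Real.pi) - Real.pi * I by ring, exp_sub,
        exp_pi_mul_I]
      ring
    rw [show -(3 / 8 + I / 2 : ℂ) = -(3 / 8) - I / 2 by ring,
      show -(3 / 8 - I / 2 : ℂ) = -(3 / 8) + I / 2 by ring, a, a, a', a']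
    ring
  · obtain ⟨δ, hδ⟩ := IsAlgClosed.exists_pow_nat_eq ((7 / 32) ^ 2 + 4 * lam) two_pos
    obtain ⟨k1, hk1⟩ := IsAlgClosed.exists_pow_nat_eq ((-(7 / 32) + δ) / 2) two_pos
    obtain ⟨k2, hk2⟩ := IsAlgClosed.exists_pow_nat_eq ((-(7 / 32) - δ) / 2) two_pos
    have h1 : k1 ^ 2 + k2 ^ 2 = -(7 / 32) := by rw [hk1, hk2]; ring
    have h2 : k1 ^ 2 * k2 ^ 2 = -lam := by rw [hk1, hk2]; linear_combination (-1 / 4) * hδ
    refine ⟨(case_ne hl h1 h2).1, fun u hu r hr => ?_⟩
    rw [(case_ne hl h1 h2).2 u hu r, key k1 k2 h1 h2 r hr]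

open Polynomial in
theorem compare {S : ℂ[X]} (hS : S.Monic) (hS2 : S.natDegree = 2) {q q1 q2 : ℝ → ℂ}
    (hq0 : ∀ x, HasDerivAt q (q1 x) x) (hq1 : ∀ x, HasDerivAt q1 (q2 x) x)
    {u u1 : ℝ → ℂ} {c : ℂ} (h0 : ∀ x, HasDerivAt u (u1 x) x) (h1 : ∀ x, HasDerivAt u1 c x)
    (h : applyL 4 p u = polyHill S q u) (x : ℝ) :
    p 0 x * u x + p 1 x * u1 x + p 2 x * c =
      (S.coeff 0 + S.coeff 1 * q x + q2 x + q x ^ 2) * u x + 2 * q1 x * u1 x +
        (S.coeff 1 + 2 * q x) * c := by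
  obtain ⟨i1, i2⟩ := iter2 (u2 := fun _ => c) h0 h1
  have i3 : iteratedDeriv 3 u = fun _ => 0 := by
    rw [iteratedDeriv_succ, i2]; funext x; simp
  have i4 : iteratedDeriv 4 u = fun _ => 0 := by
    rw [iteratedDeriv_succ, i3]; funext x; simp
  have hH : hill q u = fun x => c + q x * u x := by
    funext x; simp only [hill, i2]
  have j := (iter2 (u := fun x => c + q x * u x) (u1 := fun x => q1 x * u x + q x * u1 x)
    (u2 := fun x => q2 x * u x + q1 x * u1 x + (q1 x * u1 x + q x * c))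
    (fun x => ((hq0 x).fun_mul (h0 x)).const_add c)
    (fun x => ((hq1 x).fun_mul (h0 x)).fun_add ((hq0 x).fun_mul (h1 x)))).2
  have hc : S.coeff 2 = 1 := by rw [← hS2]; exact hS
  have := congrFun h x
  simp only [applyL, polyHill, hS2, Finset.sum_range_succ, Finset.sum_range_zero, zero_add,
    iteratedDeriv_zero, show 4 - 1 = 3 from rfl, i1, i2, i4, Function.iterate_succ,
    Function.iterate_zero, Function.comp, id, hH, hc] at this
  simp only [hill, j] at this
  linear_combination this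

open Polynomial in
theorem not_hill {S : ℂ[X]} (hS : S.Monic) (hS2 : S.natDegree = 2) {q : ℝ → ℂ}
    (hq : ContDiff ℝ 2 q) :
    ¬ ∀ u : ℝ → ℂ, ContDiff ℝ ∞ u → applyL 4 p u = polyHill S q u := by
  intro h
  have hq0 : ∀ x, HasDerivAt q (deriv q x) x := fun x =>
    (hq.differentiable (by norm_num) x).hasDerivAt
  have hq1 : ∀ x, HasDerivAt (deriv q) (deriv (deriv q) x) x := fun x =>
    ((hq.deriv' (n := 1)).differentiable (by norm_num) x).hasDerivAt
  have hid : ∀ x : ℝ, HasDerivAt (fun x : ℝ => (x : ℂ)) 1 x := fun x => by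
    simpa using (hasDerivAt_id x).ofReal_comp
  have hcd : ContDiff ℝ ∞ (fun x : ℝ => (x : ℂ)) := Complex.ofRealCLM.contDiff
  have n0 := compare hS hS2 hq0 hq1 (u := fun _ => 1) (u1 := fun _ => 0) (c := 0)
    (fun x => hasDerivAt_const x _) (fun x => hasDerivAt_const x _) (h _ contDiff_const)
  have n1 := compare hS hS2 hq0 hq1 (u := fun x => x) (u1 := fun _ => 1) (c := 0)
    hid (fun x => hasDerivAt_const x _) (h _ hcd)
  have n2 := compare hS hS2 hq0 hq1 (u := fun x => x ^ 2) (u1 := fun x => 2 * x) (c := 2)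
    (fun x => ((hid x).fun_pow 2).congr_deriv (by simp))
    (fun x => ((hid x).const_mul 2).congr_deriv (by simp)) (h _ (hcd.pow 2))
  have b1 : ∀ x, p 1 x = 2 * deriv q x := fun x => by
    linear_combination n1 x - x * n0 x
  have b2 : ∀ x, p 2 x = S.coeff 1 + 2 * q x := fun x => by
    linear_combination (n2 x) / 2 - x ^ 2 / 2 * n0 x - x * b1 x
  have b3 : ∀ x, S.coeff 0 - S.coeff 1 ^ 2 / 4 + 49 / 4096 = -(45 / 16) * g x := fun x => by
    have d1 : HasDerivAt (fun x => (128 * g x ^ 2 - 20 * g x) * v x)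
        (2 * deriv (deriv q) x) x := by
      rw [show (fun x => (128 * g x ^ 2 - 20 * g x) * v x) = fun x => 2 * deriv q x from
        funext fun x => (p1 x).symm.trans (b1 x)]
      exact (hq1 x).const_mul 2
    have d2 := d1.unique (((((dg x).fun_pow 2).const_mul 128).fun_sub
      ((dg x).const_mul 20)).fun_mul (dv x))
    have d3 := n0 x
    have d4 := b2 x
    rw [p0] at d3
    rw [p2] at d4
    push_cast at d2
    linear_combination -d3 - d2 / 2 - (128 * g x ^ 2 - 10 * g x) * vsq x +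
      (S.coeff 1 + 2 * q x + (64 * g x ^ 2 - 20 * g x + 7 / 32)) / 4 * d4
  have e1 : g Real.pi = 1 / 2 := by simp [g, gR]; norm_num
  have := (b3 0).symm.trans (b3 Real.pi)
  rw [g0, e1] at this
  norm_num at this

end Pool.Agent.Work.MP_214325_an.Sa
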